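import Pool.Agent.Zat.Defs

/-!
# The tent
-/

set_option autoImplicit false

open MeasureTheory

namespace Pool.Agent.Zat

-- BEGIN ten
theorem tent_cont (h : ℝ) : Continuous (tent h) := by
  unfold tent
  fun_prop

theorem tent_nonneg {h x : ℝ} (hh : 0 < h) (hx : |x| ≤ h) : 0 ≤ tent h x := by
  unfold tent
  refine div_nonneg ?_ hh.le
  rw [sub_nonneg, div_le_one hh]
  exact hx

theorem tent_le {h x : ℝ} (hh : 0 < h) : tent h x ≤ 1 / h := by
  unfold tent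
  refine div_le_div_of_nonneg_right ?_ hh.le
  have h1 : 0 ≤ |x| / h := div_nonneg (abs_nonneg _) hh.le
  linarith

private theorem ten_half {h : ℝ} (hh : 0 < h) : ∫ x in (0 : ℝ)..h, tent h x = 1 / 2 := by
  have e1 : ∫ x in (0 : ℝ)..h, tent h x = ∫ x in (0 : ℝ)..h, (h⁻¹ - (h⁻¹) ^ 2 * x) := by
    refine intervalIntegral.integral_congr fun x hx => ?_
    rw [Set.uIcc_of_le hh.le] at hx
    simp only [tent]
    rw [abs_of_nonneg hx.1]
    field_simp
  rw [e1, intervalIntegral.integral_sub (Continuous.intervalIntegrable (by fun_prop) _ _)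
    (Continuous.intervalIntegrable (by fun_prop) _ _),
    intervalIntegral.integral_const, intervalIntegral.integral_const_mul, integral_id]
  have h2 : h ≠ 0 := hh.ne'
  simp only [smul_eq_mul]
  field_simp
  ring

theorem tent_int {h : ℝ} (hh : 0 < h) : ∫ x in (-h)..h, tent h x = 1 := by
  have hi : ∀ a b : ℝ, IntervalIntegrable (tent h) volume a b := fun a b =>
    (tent_cont h).intervalIntegrable a b
  rw [← intervalIntegral.integral_add_adjacent_intervals (hi (-h) 0) (hi 0 h), ten_half hh]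
  have e2 : ∫ x in (-h)..(0 : ℝ), tent h x = ∫ x in (0 : ℝ)..h, tent h (-x) := by
    rw [intervalIntegral.integral_comp_neg, neg_zero]
  have e3 : ∀ x, tent h (-x) = tent h x := by
    intro x
    simp only [tent, abs_neg]
  simp only [e3] at e2
  rw [e2, ten_half hh]
  norm_num
-- END ten

-- BEGIN tft
private theorem tft_lin (p q c : ℂ) (hc : c ≠ 0) (a b : ℝ) :
    ∫ x in a..b, (p + q * (x : ℂ)) * Complex.exp (c * (x : ℂ)) =
      ((p + q * (b : ℂ)) / c - q / c ^ 2) * Complex.exp (c * (b : ℂ)) -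
        ((p + q * (a : ℂ)) / c - q / c ^ 2) * Complex.exp (c * (a : ℂ)) := by
  have hd : ∀ x ∈ Set.uIcc a b, HasDerivAt
      (fun x : ℝ => ((p + q * (x : ℂ)) / c - q / c ^ 2) * Complex.exp (c * (x : ℂ)))
      ((p + q * (x : ℂ)) * Complex.exp (c * (x : ℂ))) x := by
    intro x _
    have h1 : HasDerivAt (fun x : ℝ => (x : ℂ)) 1 x := (hasDerivAt_id x).ofReal_comp
    have h3 := (h1.const_mul c).cexp
    have h4 := (((h1.const_mul q).const_add p).div_const c).sub_const (q / c ^ 2)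
    refine (h4.mul h3).congr_deriv ?_
    field_simp
    ring
  exact intervalIntegral.integral_eq_sub_of_hasDerivAt hd
    (Continuous.intervalIntegrable (by fun_prop) a b)

private theorem tft_tent_pos {h x : ℝ} (hh : 0 < h) (hx : 0 ≤ x) :
    (tent h x : ℂ) = 1 / (h : ℂ) + (-1 / (h : ℂ) ^ 2) * (x : ℂ) := by
  have hh' : (h : ℂ) ≠ 0 := by exact_mod_cast hh.ne'
  unfold tent
  rw [abs_of_nonneg hx]
  push_cast
  field_simp
  ring

private theorem tft_tent_neg {h x : ℝ} (hh : 0 < h) (hx : x ≤ 0) :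
    (tent h x : ℂ) = 1 / (h : ℂ) + (1 / (h : ℂ) ^ 2) * (x : ℂ) := by
  have hh' : (h : ℂ) ≠ 0 := by exact_mod_cast hh.ne'
  unfold tent
  rw [abs_of_nonpos hx]
  push_cast
  field_simp
  ring

/-- The value is `(sin (h u / 2) / (h u / 2))²`; two integrations by parts on `[0, h]` (the integral is
`(2/h) ∫_0^h (1 - x/h) cos (u x) dx = 2 (1 - cos (h u)) / (h u)²`). -/
theorem tent_ft {h u : ℝ} (hh : 0 < h) (hu : 0 < u) :
    ‖∫ x in (-h)..h, (tent h x : ℂ) * Complex.exp (-((u * x : ℝ) : ℂ) * Complex.I)‖ ≤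
      4 / (h * u) ^ 2 := by
  set c : ℂ := -(u : ℂ) * Complex.I with hcdef
  have hu' : (u : ℂ) ≠ 0 := by exact_mod_cast hu.ne'
  have hh' : (h : ℂ) ≠ 0 := by exact_mod_cast hh.ne'
  have hc : c ≠ 0 := mul_ne_zero (neg_ne_zero.2 hu') Complex.I_ne_zero
  have hc2 : c ^ 2 = -(u : ℂ) ^ 2 := by
    rw [hcdef, mul_pow, Complex.I_sq]
    ring
  have hE : ∀ x : ℝ, -((u * x : ℝ) : ℂ) * Complex.I = c * (x : ℂ) := by
    intro x
    rw [hcdef]
    push_cast
    ring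
  have hcont : Continuous fun x : ℝ => (tent h x : ℂ) *
      Complex.exp (-((u * x : ℝ) : ℂ) * Complex.I) := by
    unfold tent
    fun_prop
  have hi1 : ∫ x in (0 : ℝ)..h, (tent h x : ℂ) * Complex.exp (-((u * x : ℝ) : ℂ) * Complex.I) =
      ∫ x in (0 : ℝ)..h, (1 / (h : ℂ) + (-1 / (h : ℂ) ^ 2) * (x : ℂ)) *
        Complex.exp (c * (x : ℂ)) := by
    refine intervalIntegral.integral_congr fun x hx => ?_
    rw [Set.uIcc_of_le hh.le] at hx
    show (tent h x : ℂ) * _ = _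
    rw [tft_tent_pos hh hx.1, hE]
  have hi2 : ∫ x in (-h)..(0 : ℝ), (tent h x : ℂ) *
      Complex.exp (-((u * x : ℝ) : ℂ) * Complex.I) =
      ∫ x in (-h)..(0 : ℝ), (1 / (h : ℂ) + (1 / (h : ℂ) ^ 2) * (x : ℂ)) *
        Complex.exp (c * (x : ℂ)) := by
    refine intervalIntegral.integral_congr fun x hx => ?_
    rw [Set.uIcc_of_le (by linarith)] at hx
    show (tent h x : ℂ) * _ = _
    rw [tft_tent_neg hh hx.2, hE]
  rw [← intervalIntegral.integral_add_adjacent_intervals (hcont.intervalIntegrable (-h) 0)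
    (hcont.intervalIntegrable 0 h), hi1, hi2, tft_lin _ _ c hc, tft_lin _ _ c hc]
  have hnorm : ∀ x : ℝ, ‖Complex.exp (c * (x : ℂ))‖ = 1 := by
    intro x
    have e : c * (x : ℂ) = ((-(u * x) : ℝ) : ℂ) * Complex.I := by
      rw [hcdef]
      push_cast
      ring
    rw [e, Complex.norm_exp_ofReal_mul_I]
  have hval : ((1 / (h : ℂ) + 1 / (h : ℂ) ^ 2 * ((0 : ℝ) : ℂ)) / c - 1 / (h : ℂ) ^ 2 / c ^ 2) *
        Complex.exp (c * ((0 : ℝ) : ℂ)) -
      ((1 / (h : ℂ) + 1 / (h : ℂ) ^ 2 * ((-h : ℝ) : ℂ)) / c - 1 / (h : ℂ) ^ 2 / c ^ 2) *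
        Complex.exp (c * ((-h : ℝ) : ℂ)) +
      (((1 / (h : ℂ) + -1 / (h : ℂ) ^ 2 * ((h : ℝ) : ℂ)) / c - -1 / (h : ℂ) ^ 2 / c ^ 2) *
        Complex.exp (c * ((h : ℝ) : ℂ)) -
      ((1 / (h : ℂ) + -1 / (h : ℂ) ^ 2 * ((0 : ℝ) : ℂ)) / c - -1 / (h : ℂ) ^ 2 / c ^ 2) *
        Complex.exp (c * ((0 : ℝ) : ℂ))) =
      (Complex.exp (c * ((h : ℝ) : ℂ)) + Complex.exp (c * ((-h : ℝ) : ℂ)) - 2) /
        ((h : ℂ) ^ 2 * c ^ 2) := by
    have e0 : Complex.exp (c * ((0 : ℝ) : ℂ)) = 1 := by simp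
    rw [e0]
    push_cast
    field_simp
    ring
  rw [hval, norm_div]
  have hden : ‖(h : ℂ) ^ 2 * c ^ 2‖ = (h * u) ^ 2 := by
    rw [hc2, norm_mul, norm_neg, norm_pow, norm_pow, Complex.norm_real, Complex.norm_real,
      Real.norm_of_nonneg hh.le, Real.norm_of_nonneg hu.le]
    ring
  rw [hden]
  have hnum : ‖Complex.exp (c * ((h : ℝ) : ℂ)) + Complex.exp (c * ((-h : ℝ) : ℂ)) - 2‖ ≤ 4 := by
    calc ‖Complex.exp (c * ((h : ℝ) : ℂ)) + Complex.exp (c * ((-h : ℝ) : ℂ)) - 2‖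
        ≤ ‖Complex.exp (c * ((h : ℝ) : ℂ)) + Complex.exp (c * ((-h : ℝ) : ℂ))‖ + ‖(2 : ℂ)‖ :=
          norm_sub_le _ _
      _ ≤ (‖Complex.exp (c * ((h : ℝ) : ℂ))‖ + ‖Complex.exp (c * ((-h : ℝ) : ℂ))‖) + ‖(2 : ℂ)‖ := by
          gcongr
          exact norm_add_le _ _
      _ = 4 := by
          rw [hnorm, hnorm]
          norm_num
  gcongr
-- END tft

end Pool.Agent.Zat
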