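import Pool.Agent.Zat.Rsum
import Pool.Agent.Zat.Tent

/-!
# The average to the right of the line `Re s = 1`
-/

set_option autoImplicit false

open MeasureTheory

namespace Pool.Agent.Zat

-- BEGIN avg
private theorem avg_term_cont {y n : ℕ} (hn : Rough y n) (h σ τ : ℝ) :
    Continuous (fun x : ℝ => (tent h x : ℂ) *
      (n : ℂ) ^ (-((σ : ℂ) + ((τ + x : ℝ) : ℂ) * Complex.I))) := by
  have hn0 : (n : ℂ) ≠ 0 := by exact_mod_cast hn.1
  refine (Complex.continuous_ofReal.comp (tent_cont h)).mul ?_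
  refine Continuous.const_cpow ?_ (Or.inl hn0)
  refine (continuous_const.add ?_).neg
  exact (Complex.continuous_ofReal.comp (continuous_const.add continuous_id)).mul continuous_const

private theorem avg_term_norm {n : ℕ} (hn : n ≠ 0) (σ t : ℝ) :
    ‖(n : ℂ) ^ (-((σ : ℂ) + (t : ℂ) * Complex.I))‖ = (n : ℝ) ^ (-σ) := by
  rw [Complex.norm_natCast_cpow_of_pos (Nat.pos_of_ne_zero hn)]
  simp

private theorem avg_split {n : ℕ} (hn : n ≠ 0) (σ τ x : ℝ) :
    (n : ℂ) ^ (-((σ : ℂ) + ((τ + x : ℝ) : ℂ) * Complex.I)) =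
      (n : ℂ) ^ (-((σ : ℂ) + (τ : ℂ) * Complex.I)) *
        Complex.exp (-((Real.log n * x : ℝ) : ℂ) * Complex.I) := by
  have hn0 : (n : ℂ) ≠ 0 := by exact_mod_cast hn
  have h1 : (-((σ : ℂ) + ((τ + x : ℝ) : ℂ) * Complex.I)) =
      (-((σ : ℂ) + (τ : ℂ) * Complex.I)) + (-((x : ℂ) * Complex.I)) := by
    push_cast
    ring
  rw [h1, Complex.cpow_add _ _ hn0]
  congr 1
  rw [Complex.cpow_def_of_ne_zero hn0, ← Complex.natCast_log]
  congr 1
  push_cast
  ring

private theorem avg_term_int {y n : ℕ} (hn : Rough y n) (hn1 : n ≠ 1) {h : ℝ} (hh : 0 < h)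
    {σ : ℝ} (hσ : 1 < σ) (τ : ℝ) :
    ‖∫ x in (-h)..h, (tent h x : ℂ) *
      (n : ℂ) ^ (-((σ : ℂ) + ((τ + x : ℝ) : ℂ) * Complex.I))‖ ≤
      4 / h ^ 2 * (1 / ((n : ℝ) * Real.log n ^ 2)) := by
  have hn0 : n ≠ 0 := hn.1
  have hn2 : 2 ≤ n := by omega
  have hn2R : (2 : ℝ) ≤ (n : ℝ) := by exact_mod_cast hn2
  have hnpos : (0 : ℝ) < (n : ℝ) := by linarith
  have hlog : 0 < Real.log n := Real.log_pos (by linarith)
  have h1 : (∫ x in (-h)..h, (tent h x : ℂ) *
      (n : ℂ) ^ (-((σ : ℂ) + ((τ + x : ℝ) : ℂ) * Complex.I))) =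
      (n : ℂ) ^ (-((σ : ℂ) + (τ : ℂ) * Complex.I)) *
      ∫ x in (-h)..h, (tent h x : ℂ) *
        Complex.exp (-((Real.log n * x : ℝ) : ℂ) * Complex.I) := by
    rw [← intervalIntegral.integral_const_mul]
    congr 1
    funext x
    rw [avg_split hn0 σ τ x]
    ring
  rw [h1, norm_mul, avg_term_norm hn0]
  have h2 := tent_ft hh hlog
  have h3 : (n : ℝ) ^ (-σ) ≤ 1 / (n : ℝ) := by
    rw [one_div, ← Real.rpow_neg_one]
    exact Real.rpow_le_rpow_of_exponent_le (by linarith) (by linarith)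
  calc (n : ℝ) ^ (-σ) * ‖∫ x in (-h)..h, (tent h x : ℂ) *
        Complex.exp (-((Real.log n * x : ℝ) : ℂ) * Complex.I)‖
      ≤ (1 / (n : ℝ)) * (4 / (h * Real.log n) ^ 2) :=
        mul_le_mul h3 h2 (norm_nonneg _) (by positivity)
    _ = 4 / h ^ 2 * (1 / ((n : ℝ) * Real.log n ^ 2)) := by
        field_simp

private theorem avg_one_int {h : ℝ} (hh : 0 < h) (σ τ : ℝ) :
    (∫ x in (-h)..h, (tent h x : ℂ) *
      ((1 : ℕ) : ℂ) ^ (-((σ : ℂ) + ((τ + x : ℝ) : ℂ) * Complex.I))) = 1 := by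
  have h1 : (∫ x in (-h)..h, (tent h x : ℂ) *
      ((1 : ℕ) : ℂ) ^ (-((σ : ℂ) + ((τ + x : ℝ) : ℂ) * Complex.I))) =
      ∫ x in (-h)..h, (tent h x : ℂ) := by
    congr 1
    funext x
    rw [Nat.cast_one, Complex.one_cpow, mul_one]
  rw [h1, intervalIntegral.integral_ofReal, tent_int hh, Complex.ofReal_one]

/-- Idea: `ff_hasSum`, exchange of sum and integral (`σ > 1`, dominated), the term `n = 1` gives `1`
(`tent_int`, `rough_one`), the terms `n > y` are `≤ n^{-σ} 4 / (h log n)² ≤ (4/h²) / (n (log n)²)`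
(`tent_ft`, `u = log n`), and `rough_sum` bounds all finite partial sums. -/
theorem tent_avg : ∃ C : ℝ, 0 < C ∧ ∀ y : ℕ, 2 ≤ y → ∀ h : ℝ, 0 < h → ∀ σ : ℝ, 1 < σ → ∀ τ : ℝ,
    ‖(∫ x in (-h)..h, (tent h x : ℂ) * ff y ((σ : ℂ) + ((τ + x : ℝ) : ℂ) * Complex.I)) - 1‖ ≤
      C / (h * Real.log y) ^ 2 := by
  classical
  obtain ⟨C, hC, hsum⟩ := rough_sum
  refine ⟨4 * C, by positivity, ?_⟩
  intro y hy h hh σ hσ τ
  let F : ℕ → ℝ → ℂ := fun n x => (tent h x : ℂ) *
    Set.indicator {n : ℕ | Rough y n}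
      (fun n => (n : ℂ) ^ (-((σ : ℂ) + ((τ + x : ℝ) : ℂ) * Complex.I))) n
  have hFr : ∀ n : ℕ, Rough y n → F n = fun x : ℝ => (tent h x : ℂ) *
      (n : ℂ) ^ (-((σ : ℂ) + ((τ + x : ℝ) : ℂ) * Complex.I)) := by
    intro n hn
    funext x
    simp only [F]
    rw [Set.indicator_of_mem (show n ∈ {n : ℕ | Rough y n} from hn)]
  have hFn : ∀ n : ℕ, ¬ Rough y n → F n = fun _ : ℝ => (0 : ℂ) := by
    intro n hn
    funext x
    simp only [F]
    rw [Set.indicator_of_notMem (show n ∉ {n : ℕ | Rough y n} from hn), mul_zero]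
  have hFc : ∀ n : ℕ, Continuous (F n) := by
    intro n
    by_cases hn : Rough y n
    · rw [hFr n hn]
      exact avg_term_cont hn h σ τ
    · rw [hFn n hn]
      exact continuous_const
  have hbs : Summable (fun n : ℕ => (1 / h) * (n : ℝ) ^ (-σ)) :=
    (Real.summable_nat_rpow.mpr (by linarith)).mul_left _
  have hIoc : Set.uIoc (-h) h = Set.Ioc (-h) h := Set.uIoc_of_le (by linarith)
  have hHS : HasSum (fun n : ℕ => ∫ x in (-h)..h, F n x)
      (∫ x in (-h)..h, (tent h x : ℂ) * ff y ((σ : ℂ) + ((τ + x : ℝ) : ℂ) * Complex.I)) := by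
    refine intervalIntegral.hasSum_integral_of_dominated_convergence
      (fun n _ => (1 / h) * (n : ℝ) ^ (-σ)) ?_ ?_ ?_ ?_ ?_
    · intro n
      exact (hFc n).aestronglyMeasurable
    · intro n
      refine Filter.Eventually.of_forall ?_
      intro x hx
      rw [hIoc] at hx
      have hxa : |x| ≤ h := abs_le.mpr ⟨by linarith [hx.1], hx.2⟩
      by_cases hn : Rough y n
      · rw [hFr n hn]
        simp only
        rw [norm_mul, avg_term_norm hn.1, Complex.norm_real, Real.norm_eq_abs,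
          abs_of_nonneg (tent_nonneg hh hxa)]
        exact mul_le_mul_of_nonneg_right (tent_le hh) (Real.rpow_nonneg (Nat.cast_nonneg n) _)
      · rw [hFn n hn]
        simp only [norm_zero]
        exact mul_nonneg (by positivity) (Real.rpow_nonneg (Nat.cast_nonneg n) _)
    · exact Filter.Eventually.of_forall (fun x _ => hbs)
    · exact intervalIntegrable_const
    · refine Filter.Eventually.of_forall ?_
      intro x _
      have h1 := ff_hasSum y ((σ : ℂ) + ((τ + x : ℝ) : ℂ) * Complex.I) (by simpa using hσ)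
      exact h1.mul_left _
  have hone : (∫ x in (-h)..h, F 1 x) = 1 := by
    rw [hFr 1 (rough_one y)]
    exact avg_one_int hh σ τ
  have hterm : ∀ n : ℕ, n ≠ 1 → ‖∫ x in (-h)..h, F n x‖ ≤
      if Rough y n then 4 / h ^ 2 * (1 / ((n : ℝ) * Real.log n ^ 2)) else 0 := by
    intro n hn1
    by_cases hn : Rough y n
    · rw [if_pos hn, hFr n hn]
      exact avg_term_int hn hn1 hh hσ τ
    · rw [if_neg hn, hFn n hn]
      simp
  have hlim : Filter.Tendsto
      (fun S : Finset ℕ => ‖(∑ n ∈ S, ∫ x in (-h)..h, F n x) - 1‖) Filter.atTop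
      (nhds ‖(∫ x in (-h)..h, (tent h x : ℂ) *
        ff y ((σ : ℂ) + ((τ + x : ℝ) : ℂ) * Complex.I)) - 1‖) :=
    (Filter.Tendsto.sub_const hHS 1).norm
  refine le_of_tendsto hlim ?_
  filter_upwards [Filter.eventually_ge_atTop ({1} : Finset ℕ)] with S hS
  have h1S : 1 ∈ S := hS (Finset.mem_singleton_self 1)
  have hsplit : (∑ n ∈ S, ∫ x in (-h)..h, F n x) - 1 =
      ∑ n ∈ S.erase 1, ∫ x in (-h)..h, F n x := by
    rw [← Finset.add_sum_erase S _ h1S, hone]
    ring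
  rw [hsplit]
  calc ‖∑ n ∈ S.erase 1, ∫ x in (-h)..h, F n x‖
      ≤ ∑ n ∈ S.erase 1, ‖∫ x in (-h)..h, F n x‖ := norm_sum_le _ _
    _ ≤ ∑ n ∈ S.erase 1,
        (if Rough y n then 4 / h ^ 2 * (1 / ((n : ℝ) * Real.log n ^ 2)) else 0) :=
        Finset.sum_le_sum (fun n hn => hterm n (Finset.ne_of_mem_erase hn))
    _ = ∑ n ∈ (S.erase 1).filter (fun n => Rough y n),
        4 / h ^ 2 * (1 / ((n : ℝ) * Real.log n ^ 2)) := by
        rw [Finset.sum_filter]
    _ = 4 / h ^ 2 * ∑ n ∈ (S.erase 1).filter (fun n => Rough y n),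
        1 / ((n : ℝ) * Real.log n ^ 2) := by
        rw [Finset.mul_sum]
    _ ≤ 4 / h ^ 2 * (C / Real.log y ^ 2) := by
        refine mul_le_mul_of_nonneg_left (hsum y hy _ ?_) (by positivity)
        intro n hn
        rw [Finset.mem_filter] at hn
        exact ⟨hn.2, Finset.ne_of_mem_erase hn.1⟩
    _ = 4 * C / (h * Real.log y) ^ 2 := by
        rw [mul_pow, div_mul_div_comm]
-- END avg

end Pool.Agent.Zat
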