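import Pool.Agent.Zat.Defs

/-!
# The kernel `exp (- cos (a z))`
-/

set_option autoImplicit false

open MeasureTheory

namespace Pool.Agent.Zat

-- BEGIN knm
theorem kk_norm (a x v : ℝ) : ‖kk a ((x : ℂ) + (v : ℂ) * Complex.I)‖ =
    Real.exp (-(Real.cos (a * x) * Real.cosh (a * v))) := by
  unfold kk
  rw [Complex.norm_exp]
  congr 1
  have h1 : (a : ℂ) * ((x : ℂ) + (v : ℂ) * Complex.I) =
      ((a * x : ℝ) : ℂ) + ((a * v : ℝ) : ℂ) * Complex.I := by
    push_cast; ring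
  rw [h1, Complex.cos_add_mul_I, ← Complex.ofReal_cos, ← Complex.ofReal_cosh,
    ← Complex.ofReal_sin, ← Complex.ofReal_sinh]
  simp only [Complex.neg_re, Complex.sub_re, Complex.mul_re, Complex.ofReal_re, Complex.ofReal_im,
    Complex.I_re, Complex.I_im, Complex.mul_im]
  ring

theorem kk_im (a v : ℝ) : kk a ((v : ℂ) * Complex.I) = ((Real.exp (-Real.cosh (a * v)) : ℝ) : ℂ) := by
  unfold kk
  rw [← mul_assoc, Complex.cos_mul_I]
  push_cast
  rfl

/-- `cos (a x) ≥ cos 1 ≥ 1/2`, `cosh (a v) ≥ exp (a |v|) / 2` -/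
theorem kk_top {a x v : ℝ} (ha : 0 < a) (hx : |a * x| ≤ 1) :
    ‖kk a ((x : ℂ) + (v : ℂ) * Complex.I)‖ ≤ Real.exp (-(Real.exp (a * |v|) / 4)) := by
  rw [kk_norm]
  apply Real.exp_le_exp.2
  have h1 : 1 / 2 ≤ Real.cos (a * x) := by
    have h2 := Real.one_sub_sq_div_two_le_cos (x := a * x)
    have h3 : (a * x) ^ 2 ≤ 1 := by
      rw [← sq_abs]
      nlinarith [abs_nonneg (a * x)]
    linarith
  have h4 : Real.exp (a * |v|) / 2 ≤ Real.cosh (a * v) := by
    rw [← Real.cosh_abs (a * v), abs_mul, abs_of_pos ha, Real.cosh_eq]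
    have := Real.exp_pos (-(a * |v|))
    linarith
  have h5 : (1 / 2) * (Real.exp (a * |v|) / 2) ≤ Real.cos (a * x) * Real.cosh (a * v) :=
    mul_le_mul h1 h4 (by positivity) (by linarith)
  linarith

theorem kk_diff (a : ℝ) : Differentiable ℂ (kk a) := by
  unfold kk
  fun_prop
-- END knm

-- BEGIN klo
/-- `≥ (2/a) exp (- cosh 1)` (restrict to `|v| ≤ 1/a ≤ h`), `cosh 1 < 1.55`, `exp (-1.55) > 1/5` -/
theorem kk_low {a h : ℝ} (ha : 0 < a) (hh : 1 ≤ a * h) :
    2 / (5 * a) ≤ ∫ v in (-h)..h, Real.exp (-Real.cosh (a * v)) := by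
  have hc : Continuous (fun v : ℝ => Real.exp (-Real.cosh (a * v))) :=
    Real.continuous_exp.comp ((Real.continuous_cosh.comp (continuous_const.mul continuous_id)).neg)
  have ha1 : 1 / a ≤ h := by
    rw [div_le_iff₀ ha]; linarith
  have hp : 0 < 1 / a := by positivity
  have h8 : Real.exp (8 / 5) < 5 := by
    apply lt_of_pow_lt_pow_left₀ 5 (by norm_num)
    have h1 : Real.exp (8 / 5) ^ 5 = Real.exp 1 ^ 8 := by
      rw [← Real.exp_nat_mul, ← Real.exp_nat_mul]
      norm_num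
    rw [h1]
    have h2 := Real.exp_one_lt_d9
    have h3 : Real.exp 1 ^ 8 < (2.7182818286 : ℝ) ^ 8 :=
      pow_lt_pow_left₀ h2 (Real.exp_pos 1).le (by norm_num)
    refine h3.trans ?_
    norm_num
  have hcosh : Real.cosh 1 ≤ 8 / 5 := by
    rw [Real.cosh_eq]
    have h2 := Real.exp_one_lt_d9
    have h3 := Real.exp_one_gt_d9
    have h4 : Real.exp (-1) ≤ 2 / 5 := by
      rw [Real.exp_neg, inv_le_comm₀ (Real.exp_pos 1) (by norm_num)]
      norm_num
      linarith
    linarith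
  have hlow : ∀ v ∈ Set.Icc (-(1 / a)) (1 / a), (1 / 5 : ℝ) ≤ Real.exp (-Real.cosh (a * v)) := by
    intro v hv
    have h1 : |a * v| ≤ 1 := by
      rw [abs_mul, abs_of_pos ha]
      have h2 : |v| ≤ 1 / a := abs_le.2 ⟨hv.1, hv.2⟩
      calc a * |v| ≤ a * (1 / a) := mul_le_mul_of_nonneg_left h2 ha.le
        _ = 1 := by field_simp
    have h3 : Real.cosh (a * v) ≤ Real.cosh 1 := by
      rw [Real.cosh_le_cosh]
      simpa using h1
    have h4 : (1 / 5 : ℝ) ≤ Real.exp (-(8 / 5)) := by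
      rw [Real.exp_neg, one_div]
      exact inv_anti₀ (Real.exp_pos _) h8.le
    exact h4.trans (Real.exp_le_exp.2 (by linarith))
  have h1 : ∫ v in (-(1 / a))..(1 / a), (1 / 5 : ℝ) ≤
      ∫ v in (-(1 / a))..(1 / a), Real.exp (-Real.cosh (a * v)) := by
    apply intervalIntegral.integral_mono_on (by linarith) (by simp) (hc.intervalIntegrable _ _)
    intro v hv
    exact hlow v hv
  have h2 : ∫ v in (-(1 / a))..(1 / a), Real.exp (-Real.cosh (a * v)) ≤
      ∫ v in (-h)..h, Real.exp (-Real.cosh (a * v)) := by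
    apply intervalIntegral.integral_mono_interval (by linarith) (by linarith) ha1
    · exact Filter.Eventually.of_forall fun v => (Real.exp_pos _).le
    · exact hc.intervalIntegrable _ _
  have h3 : ∫ v in (-(1 / a))..(1 / a), (1 / 5 : ℝ) = 2 / (5 * a) := by
    rw [intervalIntegral.integral_const]
    simp only [smul_eq_mul]
    field_simp
    ring
  linarith
-- END klo

-- BEGIN kup
/-- by `kk_norm`: `‖·‖ ≤ exp (- (1/2) cosh (a v)) ≤ exp (- (a v)² / 4)`, Gaussian integral -/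
theorem kk_up {a h : ℝ} (ha : 0 < a) (hh : 0 < h) :
    ∫ v in (-h)..h, ‖kk a (((-(1 / a) : ℝ) : ℂ) + (v : ℂ) * Complex.I)‖ ≤ 4 / a := by
  have h1 : ∀ v : ℝ, ‖kk a (((-(1 / a) : ℝ) : ℂ) + (v : ℂ) * Complex.I)‖ ≤
      Real.exp (-(a ^ 2 / 4) * v ^ 2) := by
    intro v
    rw [kk_norm]
    apply Real.exp_le_exp.2
    have h2 : 1 / 2 ≤ Real.cos (a * -(1 / a)) := by
      have h3 : a * -(1 / a) = -1 := by field_simp
      rw [h3]
      have h4 := Real.one_sub_sq_div_two_le_cos (x := -1)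
      linarith
    have h5 : (a * v) ^ 2 / 2 ≤ Real.cosh (a * v) := by
      have h6 := Real.cosh_sq (a * v / 2)
      have h7 := Real.cosh_two_mul (a * v / 2)
      have h8 : 2 * (a * v / 2) = a * v := by ring
      rw [h8] at h7
      have h9 : (a * v / 2) ^ 2 ≤ Real.sinh (a * v / 2) ^ 2 := by
        rw [← sq_abs (a * v / 2), ← sq_abs (Real.sinh (a * v / 2)), Real.abs_sinh]
        exact pow_le_pow_left₀ (abs_nonneg _) (Real.self_le_sinh_iff.2 (abs_nonneg _)) 2
      nlinarith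
    have h10 : (1 / 2) * ((a * v) ^ 2 / 2) ≤ Real.cos (a * -(1 / a)) * Real.cosh (a * v) :=
      mul_le_mul h2 h5 (by positivity) (by linarith)
    nlinarith
  have hb : 0 < a ^ 2 / 4 := by positivity
  have hi := integrable_exp_neg_mul_sq hb
  have hc : Continuous (fun v : ℝ => ‖kk a (((-(1 / a) : ℝ) : ℂ) + (v : ℂ) * Complex.I)‖) := by
    apply Continuous.norm
    exact (kk_diff a).continuous.comp
      (continuous_const.add (Complex.continuous_ofReal.mul continuous_const))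
  have h2 : ∫ v in (-h)..h, ‖kk a (((-(1 / a) : ℝ) : ℂ) + (v : ℂ) * Complex.I)‖ ≤
      ∫ v in (-h)..h, Real.exp (-(a ^ 2 / 4) * v ^ 2) := by
    apply intervalIntegral.integral_mono_on (by linarith) (hc.intervalIntegrable _ _)
      (hi.intervalIntegrable)
    intro v _
    exact h1 v
  have h3 : ∫ v in (-h)..h, Real.exp (-(a ^ 2 / 4) * v ^ 2) ≤
      ∫ v : ℝ, Real.exp (-(a ^ 2 / 4) * v ^ 2) := by
    rw [intervalIntegral.integral_of_le (by linarith)]
    apply setIntegral_le_integral hi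
    exact Filter.Eventually.of_forall fun v => (Real.exp_pos _).le
  rw [integral_gaussian] at h3
  have h4 : Real.sqrt (Real.pi / (a ^ 2 / 4)) ≤ 4 / a := by
    apply Real.sqrt_le_iff.2
    constructor
    · positivity
    · rw [div_pow, div_div_eq_mul_div]
      apply div_le_div_of_nonneg_right _ (by positivity)
      nlinarith [Real.pi_le_four]
  linarith
-- END kup

-- BEGIN cau
/-- Cauchy-Goursat (`Complex.integral_boundary_rect_eq_zero_of_differentiableOn`) for `F · kk a` on the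
rectangle `[-1/a, 0] × [-h, h]`, with `kk_im`, `kk_top`. -/
theorem cauchy_rect {a h B : ℝ} (ha : 0 < a) (hh : 0 < h) (F : ℂ → ℂ)
    (hF : ∀ z : ℂ, z.re ∈ Set.Icc (-(1 / a)) 0 → z.im ∈ Set.Icc (-h) h → DifferentiableAt ℂ F z)
    (hB : ∀ z : ℂ, z.re ∈ Set.Icc (-(1 / a)) 0 → |z.im| = h → ‖F z‖ ≤ B) :
    ‖∫ v in (-h)..h, F ((v : ℂ) * Complex.I) * ((Real.exp (-Real.cosh (a * v)) : ℝ) : ℂ)‖ ≤
      (∫ v in (-h)..h, ‖F (((-(1 / a) : ℝ) : ℂ) + (v : ℂ) * Complex.I)‖ *
        ‖kk a (((-(1 / a) : ℝ) : ℂ) + (v : ℂ) * Complex.I)‖) +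
        (2 / a) * (B * Real.exp (-(Real.exp (a * h) / 4))) := by
  have ha' : -(1 / a) ≤ 0 := by
    have := div_pos one_pos ha
    linarith
  have hle : -h ≤ h := by linarith
  have key := Complex.integral_boundary_rect_eq_zero_of_differentiableOn (fun z => F z * kk a z)
    ((⟨-(1 / a), -h⟩ : ℂ)) ((⟨0, h⟩ : ℂ)) (by
      intro z hz
      rw [Complex.mem_reProdIm] at hz
      simp only [Set.uIcc_of_le ha', Set.uIcc_of_le hle] at hz
      exact ((hF z hz.1 hz.2).mul (kk_diff a z)).differentiableWithinAt)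
  simp only at key
  have hR : ∫ y in (-h)..h, F (((0 : ℝ) : ℂ) + (y : ℂ) * Complex.I) *
        kk a (((0 : ℝ) : ℂ) + (y : ℂ) * Complex.I) =
      ∫ v in (-h)..h, F ((v : ℂ) * Complex.I) * ((Real.exp (-Real.cosh (a * v)) : ℝ) : ℂ) := by
    refine intervalIntegral.integral_congr fun v _ => ?_
    show F (((0 : ℝ) : ℂ) + (v : ℂ) * Complex.I) * kk a (((0 : ℝ) : ℂ) + (v : ℂ) * Complex.I) =
      F ((v : ℂ) * Complex.I) * ((Real.exp (-Real.cosh (a * v)) : ℝ) : ℂ)
    rw [Complex.ofReal_zero, zero_add, kk_im]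
  rw [hR] at key
  have hside : ∀ t : ℝ, |t| = h →
      ‖∫ x in (-(1 / a))..0, F ((x : ℂ) + (t : ℂ) * Complex.I) *
        kk a ((x : ℂ) + (t : ℂ) * Complex.I)‖ ≤
        (1 / a) * (B * Real.exp (-(Real.exp (a * h) / 4))) := by
    intro t ht
    have h1 := intervalIntegral.norm_integral_le_of_norm_le_const
      (a := -(1 / a)) (b := 0) (C := B * Real.exp (-(Real.exp (a * h) / 4)))
      (f := fun x : ℝ => F ((x : ℂ) + (t : ℂ) * Complex.I) *
        kk a ((x : ℂ) + (t : ℂ) * Complex.I)) (by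
        intro x hx
        rw [Set.uIoc_of_le ha'] at hx
        have e1 : ((x : ℂ) + (t : ℂ) * Complex.I).re = x := by simp
        have e2 : ((x : ℂ) + (t : ℂ) * Complex.I).im = t := by simp
        have h2 : ‖F ((x : ℂ) + (t : ℂ) * Complex.I)‖ ≤ B :=
          hB _ (by rw [e1]; exact ⟨hx.1.le, hx.2⟩) (by rw [e2]; exact ht)
        have h3 : ‖kk a ((x : ℂ) + (t : ℂ) * Complex.I)‖ ≤ Real.exp (-(Real.exp (a * |t|) / 4)) := by
          refine kk_top ha ?_
          rw [abs_le]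
          constructor
          · have h5 := mul_le_mul_of_nonneg_left hx.1.le ha.le
            have h6 : a * -(1 / a) = -1 := by field_simp
            linarith
          · nlinarith [hx.2]
        rw [ht] at h3
        show ‖F ((x : ℂ) + (t : ℂ) * Complex.I) * kk a ((x : ℂ) + (t : ℂ) * Complex.I)‖ ≤ _
        rw [norm_mul]
        exact mul_le_mul h2 h3 (norm_nonneg _) ((norm_nonneg _).trans h2))
    have h7 : |(0 : ℝ) - -(1 / a)| = 1 / a := by
      rw [sub_neg_eq_add, zero_add, abs_of_pos (div_pos one_pos ha)]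
    rw [h7] at h1
    linarith
  have hs1 := hside h (abs_of_pos hh)
  have hs2 := hside (-h) (by rw [abs_neg, abs_of_pos hh])
  have hleft : ‖∫ y in (-h)..h, F (((-(1 / a) : ℝ) : ℂ) + (y : ℂ) * Complex.I) *
        kk a (((-(1 / a) : ℝ) : ℂ) + (y : ℂ) * Complex.I)‖ ≤
      ∫ v in (-h)..h, ‖F (((-(1 / a) : ℝ) : ℂ) + (v : ℂ) * Complex.I)‖ *
        ‖kk a (((-(1 / a) : ℝ) : ℂ) + (v : ℂ) * Complex.I)‖ := by
    refine (intervalIntegral.norm_integral_le_integral_norm hle).trans (le_of_eq ?_)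
    exact intervalIntegral.integral_congr fun v _ => norm_mul _ _
  set R := ∫ v in (-h)..h, F ((v : ℂ) * Complex.I) * ((Real.exp (-Real.cosh (a * v)) : ℝ) : ℂ)
  set L := ∫ y in (-h)..h, F (((-(1 / a) : ℝ) : ℂ) + (y : ℂ) * Complex.I) *
        kk a (((-(1 / a) : ℝ) : ℂ) + (y : ℂ) * Complex.I)
  set P := ∫ x in (-(1 / a))..0, F ((x : ℂ) + (h : ℂ) * Complex.I) *
        kk a ((x : ℂ) + (h : ℂ) * Complex.I)
  set Q := ∫ x in (-(1 / a))..0, F ((x : ℂ) + ((-h : ℝ) : ℂ) * Complex.I) *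
        kk a ((x : ℂ) + ((-h : ℝ) : ℂ) * Complex.I)
  have h8 : Complex.I • R = Complex.I • L + (P - Q) := by
    linear_combination key
  have h9 : ‖R‖ ≤ ‖L‖ + (‖P‖ + ‖Q‖) := by
    have h10 : ‖Complex.I • R‖ = ‖R‖ := by rw [norm_smul, Complex.norm_I, one_mul]
    have h11 : ‖Complex.I • L‖ = ‖L‖ := by rw [norm_smul, Complex.norm_I, one_mul]
    rw [← h10, h8, ← h11]
    exact (norm_add_le _ _).trans (add_le_add le_rfl (norm_sub_le _ _))
  have h12 : (2 / a) * (B * Real.exp (-(Real.exp (a * h) / 4))) =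
      (1 / a) * (B * Real.exp (-(Real.exp (a * h) / 4))) +
        (1 / a) * (B * Real.exp (-(Real.exp (a * h) / 4))) := by ring
  rw [h12]
  linarith
-- END cau

end Pool.Agent.Zat
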