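import Pool.Agent.Zat.Tent

/-!
# Two exchanges of integrals
-/

set_option autoImplicit false

open MeasureTheory

namespace Pool.Agent.Zat

-- BEGIN swl
/-- Fubini (all functions are continuous on the square; `G` may be extended to a continuous function) -/
theorem swap_left {h : ℝ} (hh : 0 < h) (G : ℝ → ℂ)
    (hG : ContinuousOn G (Set.Icc (-(2 * h)) (2 * h))) (k : ℝ → ℝ) (hk : Continuous k) :
    ∫ x in (-h)..h, (tent h x : ℂ) * (∫ v in (-h)..h, G (x + v) * (k v : ℂ)) =
      ∫ v in (-h)..h, (k v : ℂ) * (∫ x in (-h)..h, (tent h x : ℂ) * G (v + x)) := by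
  have h2 : -(2 * h) ≤ 2 * h := by linarith
  have hle : -h ≤ h := by linarith
  have cG : Continuous (Set.IccExtend h2 ((Set.Icc (-(2 * h)) (2 * h)).domRestrict G)) :=
    (continuousOn_iff_continuous_domRestrict.1 hG).Icc_extend'
  have eG : ∀ x ∈ Set.Icc (-(2 * h)) (2 * h),
      Set.IccExtend h2 ((Set.Icc (-(2 * h)) (2 * h)).domRestrict G) x = G x :=
    fun x hx => Set.IccExtend_of_mem h2 _ hx
  generalize Set.IccExtend h2 ((Set.Icc (-(2 * h)) (2 * h)).domRestrict G) = K at cG eG
  have hm : ∀ x ∈ Set.uIcc (-h) h, ∀ v ∈ Set.uIcc (-h) h, x + v ∈ Set.Icc (-(2 * h)) (2 * h) := by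
    intro x hx v hv
    rw [Set.uIcc_of_le hle] at hx hv
    exact ⟨by linarith [hx.1, hv.1], by linarith [hx.2, hv.2]⟩
  have hL : ∫ x in (-h)..h, (tent h x : ℂ) * (∫ v in (-h)..h, G (x + v) * (k v : ℂ)) =
      ∫ x in (-h)..h, ∫ v in (-h)..h, (tent h x : ℂ) * (K (x + v) * (k v : ℂ)) := by
    refine intervalIntegral.integral_congr fun x hx => ?_
    show (tent h x : ℂ) * (∫ v in (-h)..h, G (x + v) * (k v : ℂ)) =
      ∫ v in (-h)..h, (tent h x : ℂ) * (K (x + v) * (k v : ℂ))
    rw [← intervalIntegral.integral_const_mul]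
    refine intervalIntegral.integral_congr fun v hv => ?_
    show (tent h x : ℂ) * (G (x + v) * (k v : ℂ)) = (tent h x : ℂ) * (K (x + v) * (k v : ℂ))
    rw [eG _ (hm x hx v hv)]
  have hR : ∫ v in (-h)..h, (k v : ℂ) * (∫ x in (-h)..h, (tent h x : ℂ) * G (v + x)) =
      ∫ v in (-h)..h, ∫ x in (-h)..h, (tent h x : ℂ) * (K (x + v) * (k v : ℂ)) := by
    refine intervalIntegral.integral_congr fun v hv => ?_
    show (k v : ℂ) * (∫ x in (-h)..h, (tent h x : ℂ) * G (v + x)) =
      ∫ x in (-h)..h, (tent h x : ℂ) * (K (x + v) * (k v : ℂ))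
    rw [← intervalIntegral.integral_const_mul]
    refine intervalIntegral.integral_congr fun x hx => ?_
    show (k v : ℂ) * ((tent h x : ℂ) * G (v + x)) = (tent h x : ℂ) * (K (x + v) * (k v : ℂ))
    rw [eG _ (hm x hx v hv), add_comm v x]
    ring
  have cF : Continuous (Function.uncurry
      fun x v : ℝ => (tent h x : ℂ) * (K (x + v) * (k v : ℂ))) := by
    have c1 : Continuous fun p : ℝ × ℝ => (tent h p.1 : ℂ) :=
      Complex.continuous_ofReal.comp ((tent_cont h).comp continuous_fst)
    have c2 : Continuous fun p : ℝ × ℝ => K (p.1 + p.2) :=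
      cG.comp (continuous_fst.add continuous_snd)
    have c3 : Continuous fun p : ℝ × ℝ => (k p.2 : ℂ) :=
      Complex.continuous_ofReal.comp (hk.comp continuous_snd)
    exact c1.mul (c2.mul c3)
  have hint : Integrable (Function.uncurry
      fun x v : ℝ => (tent h x : ℂ) * (K (x + v) * (k v : ℂ)))
      ((volume.restrict (Set.Ioc (-h) h)).prod (volume.restrict (Set.Ioc (-h) h))) := by
    rw [Measure.prod_restrict]
    have h3 := (cF.continuousOn (s := Set.Icc (-h) h ×ˢ Set.Icc (-h) h)).integrableOn_compact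
      (μ := (volume : Measure ℝ).prod volume) (isCompact_Icc.prod isCompact_Icc)
    exact h3.mono_set (Set.prod_mono Set.Ioc_subset_Icc_self Set.Ioc_subset_Icc_self)
  rw [hL, hR, intervalIntegral.integral_of_le hle, intervalIntegral.integral_of_le hle]
  simp only [intervalIntegral.integral_of_le hle]
  exact integral_integral_swap hint
-- END swl

-- BEGIN swr
theorem swr_ext {h : ℝ} (hh : 0 < h) (G : ℝ → ℝ)
    (hG : ContinuousOn G (Set.Icc (-(2 * h)) (2 * h))) (hG0 : ∀ w, 0 ≤ G w) :
    ∃ G' : ℝ → ℝ, Continuous G' ∧ (∀ w, 0 ≤ G' w) ∧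
      (∀ w ∈ Set.Icc (-(2 * h)) (2 * h), G w = G' w) := by
  have hle : -(2 * h) ≤ 2 * h := by linarith
  refine ⟨Set.IccExtend hle (Set.domRestrict (Set.Icc (-(2 * h)) (2 * h)) G),
    hG.domRestrict.Icc_extend', fun w => hG0 _, fun w hw => ?_⟩
  rw [Set.IccExtend_of_mem hle _ hw]
  rfl

theorem swr_swap {a b c d : ℝ} {F : ℝ → ℝ → ℝ} (hF : Continuous (Function.uncurry F)) :
    ∫ x in a..b, ∫ y in c..d, F x y = ∫ y in c..d, ∫ x in a..b, F x y := by
  refine intervalIntegral_intervalIntegral_swap ?_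
  exact (hF.continuousOn.integrableOn_compact (isCompact_uIcc.prod isCompact_uIcc)).mono_set
    (Set.prod_mono Set.uIoc_subset_uIcc Set.uIoc_subset_uIcc)

/-- Fubini, then `tent ≤ 1/h` and `∫_{-h}^{h} G (x + v) dx ≤ ∫_{-2h}^{2h} G` for `|v| ≤ h` -/
theorem swap_right {h : ℝ} (hh : 0 < h) (G : ℝ → ℝ)
    (hG : ContinuousOn G (Set.Icc (-(2 * h)) (2 * h))) (hG0 : ∀ w, 0 ≤ G w)
    (k : ℝ → ℝ) (hk : Continuous k) (hk0 : ∀ v, 0 ≤ k v) :
    ∫ x in (-h)..h, tent h x * (∫ v in (-h)..h, G (x + v) * k v) ≤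
      (1 / h) * (∫ v in (-h)..h, k v) * ∫ w in (-(2 * h))..(2 * h), G w := by
  obtain ⟨G', hG', h0, he⟩ := swr_ext hh G hG hG0
  have hle : -h ≤ h := by linarith
  have hmem : ∀ x ∈ Set.uIcc (-h) h, ∀ v ∈ Set.uIcc (-h) h, x + v ∈ Set.Icc (-(2 * h)) (2 * h) := by
    intro x hx v hv
    rw [Set.uIcc_of_le hle] at hx hv
    exact ⟨by linarith [hx.1, hv.1], by linarith [hx.2, hv.2]⟩
  have hJ : ∫ w in (-(2 * h))..(2 * h), G w = ∫ w in (-(2 * h))..(2 * h), G' w := by
    refine intervalIntegral.integral_congr fun w hw => he w ?_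
    rwa [Set.uIcc_of_le (by linarith)] at hw
  have h1 : ∫ x in (-h)..h, tent h x * (∫ v in (-h)..h, G (x + v) * k v) =
      ∫ x in (-h)..h, ∫ v in (-h)..h, tent h x * (G' (x + v) * k v) := by
    refine intervalIntegral.integral_congr fun x hx => ?_
    show tent h x * (∫ v in (-h)..h, G (x + v) * k v) =
      ∫ v in (-h)..h, tent h x * (G' (x + v) * k v)
    rw [intervalIntegral.integral_const_mul]
    congr 1
    refine intervalIntegral.integral_congr fun v hv => ?_
    show G (x + v) * k v = G' (x + v) * k v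
    rw [he _ (hmem x hx v hv)]
  have hF : Continuous (Function.uncurry fun x v : ℝ => tent h x * (G' (x + v) * k v)) :=
    ((tent_cont h).comp continuous_fst).mul ((hG'.comp (continuous_fst.add continuous_snd)).mul
      (hk.comp continuous_snd))
  rw [h1, swr_swap hF, hJ]
  have h3 : ∀ v ∈ Set.Icc (-h) h, ∫ x in (-h)..h, tent h x * (G' (x + v) * k v) ≤
      k v * ((1 / h) * ∫ w in (-(2 * h))..(2 * h), G' w) := by
    intro v hv
    have e1 : ∫ x in (-h)..h, tent h x * (G' (x + v) * k v) ≤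
        ∫ x in (-h)..h, (1 / h * k v) * G' (x + v) := by
      refine intervalIntegral.integral_mono_on hle ?_ ?_ fun x hx => ?_
      · exact ((tent_cont h).mul ((hG'.comp (continuous_id.add continuous_const)).mul
          continuous_const)).intervalIntegrable _ _
      · exact (continuous_const.mul (hG'.comp (continuous_id.add continuous_const))).intervalIntegrable
          _ _
      · calc tent h x * (G' (x + v) * k v) ≤ 1 / h * (G' (x + v) * k v) :=
              mul_le_mul_of_nonneg_right (tent_le hh) (mul_nonneg (h0 _) (hk0 _))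
          _ = 1 / h * k v * G' (x + v) := by ring
    have e2 : ∫ x in (-h)..h, G' (x + v) = ∫ w in (-h + v)..(h + v), G' w :=
      intervalIntegral.integral_comp_add_right G' v
    have e3 : ∫ w in (-h + v)..(h + v), G' w ≤ ∫ w in (-(2 * h))..(2 * h), G' w := by
      refine intervalIntegral.integral_mono_interval (by linarith [hv.1]) (by linarith)
        (by linarith [hv.2]) (Filter.Eventually.of_forall h0) (hG'.intervalIntegrable _ _)
    rw [intervalIntegral.integral_const_mul, e2] at e1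
    refine e1.trans ?_
    calc 1 / h * k v * ∫ w in (-h + v)..(h + v), G' w ≤
        1 / h * k v * ∫ w in (-(2 * h))..(2 * h), G' w :=
          mul_le_mul_of_nonneg_left e3 (mul_nonneg (by positivity) (hk0 v))
      _ = k v * ((1 / h) * ∫ w in (-(2 * h))..(2 * h), G' w) := by ring
  have h4 : ∫ v in (-h)..h, ∫ x in (-h)..h, tent h x * (G' (x + v) * k v) ≤
      ∫ v in (-h)..h, k v * ((1 / h) * ∫ w in (-(2 * h))..(2 * h), G' w) := by
    refine intervalIntegral.integral_mono_on hle ?_ ?_ h3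
    · refine Continuous.intervalIntegrable ?_ _ _
      refine intervalIntegral.continuous_parametric_intervalIntegral_of_continuous' ?_ _ _
      exact hF.comp (continuous_snd.prodMk continuous_fst)
    · exact (hk.mul continuous_const).intervalIntegrable _ _
  refine h4.trans (le_of_eq ?_)
  rw [intervalIntegral.integral_mul_const]
  ring
-- END swr

-- BEGIN cin
/-- the inner integral depends continuously on `x` -/
theorem inner_cont {h : ℝ} (hh : 0 < h) (G : ℝ → ℂ)
    (hG : ContinuousOn G (Set.Icc (-(2 * h)) (2 * h))) (k : ℝ → ℝ) (hk : Continuous k) :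
    ContinuousOn (fun x : ℝ => ∫ v in (-h)..h, G (x + v) * (k v : ℂ)) (Set.Icc (-h) h) := by
  have hle : -(2 * h) ≤ 2 * h := by linarith
  have hE : Continuous (Set.IccExtend hle (Set.domRestrict (Set.Icc (-(2 * h)) (2 * h)) G)) :=
    hG.domRestrict.Icc_extend'
  have hc : Continuous fun x : ℝ => ∫ v in (-h)..h,
      Set.IccExtend hle (Set.domRestrict (Set.Icc (-(2 * h)) (2 * h)) G) (x + v) * (k v : ℂ) := by
    refine intervalIntegral.continuous_parametric_intervalIntegral_of_continuous' ?_ _ _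
    exact (hE.comp (continuous_fst.add continuous_snd)).mul
      (Complex.continuous_ofReal.comp (hk.comp continuous_snd))
  refine hc.continuousOn.congr fun x hx => ?_
  refine intervalIntegral.integral_congr fun v hv => ?_
  have hv' : v ∈ Set.Icc (-h) h := by
    rwa [Set.uIcc_of_le (by linarith)] at hv
  have hm : x + v ∈ Set.Icc (-(2 * h)) (2 * h) :=
    ⟨by linarith [hx.1, hv'.1], by linarith [hx.2, hv'.2]⟩
  show G (x + v) * (k v : ℂ) =
    Set.IccExtend hle (Set.domRestrict (Set.Icc (-(2 * h)) (2 * h)) G) (x + v) * (k v : ℂ)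
  rw [Set.IccExtend_of_mem hle _ hm]
  rfl
-- END cin

end Pool.Agent.Zat
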