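import Pool.Agent.Zat.Avg
import Pool.Agent.Zat.Ker
import Pool.Agent.Zat.Swap

/-!
# The core inequality
-/

set_option autoImplicit false

open MeasureTheory

namespace Pool.Agent.Zat

-- BEGIN cor
private theorem cor_ff_diff (y : ℕ) {s : ℂ} (hs : s ≠ 1) :
    DifferentiableAt ℂ (ff y) s := by
  have h1 : DifferentiableAt ℂ riemannZeta s := differentiableAt_riemannZeta hs
  have h2 : DifferentiableAt ℂ (MM y) s := by
    unfold MM
    refine DifferentiableAt.fun_finsetProd fun p hp => ?_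
    have hp0 : (p : ℂ) ≠ 0 := by
      have := (Finset.mem_filter.1 hp).2
      exact_mod_cast this.ne_zero
    exact (differentiableAt_const _).sub ((differentiableAt_id.neg).const_cpow (Or.inl hp0))
  exact h1.mul h2

/-- Idea: `σ₁ = σ + 1/a > 1`, `G w = ff y (σ₁ + i (τ + w))`, `k v = exp (- cosh (a v))`. For `|x| ≤ h`,
`cauchy_rect` with `F z = ff y (σ₁ + i (τ + x) + z)` bounds `‖∫ G (x+v) k v‖`. Multiply by `tent h x`
and integrate over `x`: the left side is, by `swap_left` and `tent_avg` (`A = 2 sqrt C`, error `≤ 1/4`),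
at least `(3/4) · 2/(5a)` (`kk_low`), the right side is at most (`swap_right`, `kk_up`, `tent_int`)
`(1/h) (4/a) I + (2/a)/100`. So `I ≥ (7/100) h`. -/
theorem core : ∃ A : ℝ, 0 < A ∧ ∀ y : ℕ, 2 ≤ y → ∀ h : ℝ, 0 < h → A ≤ h * Real.log y →
    ∀ a : ℝ, 0 < a → 1 ≤ a * h → ∀ σ τ : ℝ, 1 < σ + 1 / a → 2 * h < τ → ∀ B : ℝ,
      (∀ s : ℂ, σ ≤ s.re → s.re ≤ σ + 1 / a → |s.im - τ| ≤ 2 * h → ‖ff y s‖ ≤ B) →
        B * Real.exp (-(Real.exp (a * h) / 4)) ≤ 1 / 100 →
          h / 20 ≤ ∫ w in (-(2 * h))..(2 * h), ‖ff y ((σ : ℂ) + ((τ + w : ℝ) : ℂ) * Complex.I)‖ := by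
  obtain ⟨C, hC, hav⟩ := tent_avg
  refine ⟨2 * Real.sqrt C, by positivity, ?_⟩
  intro y hy h hh hA a ha hah σ τ hσ hτ B hB hBe
  -- the error of the average
  have herr : C / (h * Real.log y) ^ 2 ≤ 1 / 4 := by
    have h1 : (2 * Real.sqrt C) ^ 2 ≤ (h * Real.log y) ^ 2 :=
      pow_le_pow_left₀ (by positivity) hA 2
    have h2 : (2 * Real.sqrt C) ^ 2 = 4 * C := by
      rw [mul_pow, Real.sq_sqrt hC.le]; norm_num
    rw [h2] at h1
    have h3 : 0 < (h * Real.log y) ^ 2 := by linarith
    rw [div_le_iff₀ h3]; linarith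
  have hne : ∀ (r t : ℝ), 0 < t → ((r : ℂ) + (t : ℂ) * Complex.I) ≠ 1 := by
    intro r t ht he
    have := congrArg Complex.im he
    simp at this
    linarith
  have hcont : ∀ r : ℝ, ContinuousOn (fun w : ℝ => ff y ((r : ℂ) + ((τ + w : ℝ) : ℂ) * Complex.I))
      (Set.Icc (-(2 * h)) (2 * h)) := by
    intro r w hw
    have h1 : ContinuousAt (ff y) ((r : ℂ) + ((τ + w : ℝ) : ℂ) * Complex.I) :=
      (cor_ff_diff y (hne r (τ + w) (by linarith [hw.1]))).continuousAt
    have h2 : ContinuousAt (fun w : ℝ => (r : ℂ) + ((τ + w : ℝ) : ℂ) * Complex.I) w := by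
      fun_prop
    exact (ContinuousAt.comp (f := fun w : ℝ => (r : ℂ) + ((τ + w : ℝ) : ℂ) * Complex.I)
      (g := ff y) h1 h2).continuousWithinAt
  set G : ℝ → ℂ := fun w => ff y (((σ + 1 / a : ℝ) : ℂ) + ((τ + w : ℝ) : ℂ) * Complex.I) with hGdef
  set N : ℝ → ℝ := fun w => ‖ff y ((σ : ℂ) + ((τ + w : ℝ) : ℂ) * Complex.I)‖ with hNdef
  set k : ℝ → ℝ := fun v => Real.exp (-Real.cosh (a * v)) with hkdef
  set k2 : ℝ → ℝ := fun v => ‖kk a (((-(1 / a) : ℝ) : ℂ) + (v : ℂ) * Complex.I)‖ with hk2def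
  have hG : ContinuousOn G (Set.Icc (-(2 * h)) (2 * h)) := hcont _
  have hN : ContinuousOn N (Set.Icc (-(2 * h)) (2 * h)) := (hcont σ).norm
  have hN0 : ∀ w, 0 ≤ N w := fun w => norm_nonneg _
  have hk : Continuous k := by
    have : Continuous Real.cosh := Real.continuous_cosh
    simp only [hkdef]
    fun_prop
  have hk0 : ∀ v, 0 ≤ k v := fun v => (Real.exp_pos _).le
  have hk2 : Continuous k2 := by
    have h1 : Continuous (kk a) := (kk_diff a).continuous
    simp only [hk2def]
    fun_prop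
  have hk20 : ∀ v, 0 ≤ k2 v := fun v => norm_nonneg _
  -- the three integrals
  set I1 : ℝ → ℂ := fun x => ∫ v in (-h)..h, G (x + v) * (k v : ℂ) with hI1
  set J : ℝ → ℝ := fun x => ∫ v in (-h)..h, N (x + v) * k2 v with hJ
  have hI1c : ContinuousOn I1 (Set.Icc (-h) h) := inner_cont hh G hG k hk
  have hJc : ContinuousOn J (Set.Icc (-h) h) := by
    have h1 := inner_cont hh (fun w => ((N w : ℝ) : ℂ))
      (Complex.continuous_ofReal.comp_continuousOn hN) k2 hk2
    have h2 : J = fun x => (∫ v in (-h)..h, ((N (x + v) : ℝ) : ℂ) * (k2 v : ℂ)).re := by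
      funext x
      have h3 : (∫ v in (-h)..h, ((N (x + v) : ℝ) : ℂ) * (k2 v : ℂ)) = ((J x : ℝ) : ℂ) := by
        simp only [hJ]
        rw [← intervalIntegral.integral_ofReal]
        congr 1
        funext v
        push_cast
        rfl
      rw [h3, Complex.ofReal_re]
    rw [h2]
    exact Complex.continuous_re.comp_continuousOn h1
  -- Cauchy
  have hpt : ∀ x ∈ Set.Icc (-h) h, ‖I1 x‖ ≤ J x + (2 / a) * (1 / 100) := by
    intro x hx
    have h1 := cauchy_rect (B := B) ha hh
      (fun z => ff y ((((σ + 1 / a : ℝ) : ℂ) + ((τ + x : ℝ) : ℂ) * Complex.I) + z)) ?_ ?_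
    · have h2 : (∫ v in (-h)..h, (fun z => ff y ((((σ + 1 / a : ℝ) : ℂ) +
          ((τ + x : ℝ) : ℂ) * Complex.I) + z)) ((v : ℂ) * Complex.I) *
            ((Real.exp (-Real.cosh (a * v)) : ℝ) : ℂ)) = I1 x := by
        simp only [hI1]
        congr 1
        funext v
        simp only [hGdef, hkdef]
        congr 2
        push_cast
        ring
      have h3 : (∫ v in (-h)..h, ‖(fun z => ff y ((((σ + 1 / a : ℝ) : ℂ) +
          ((τ + x : ℝ) : ℂ) * Complex.I) + z)) (((-(1 / a) : ℝ) : ℂ) + (v : ℂ) * Complex.I)‖ *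
            ‖kk a (((-(1 / a) : ℝ) : ℂ) + (v : ℂ) * Complex.I)‖) = J x := by
        simp only [hJ]
        congr 1
        funext v
        simp only [hNdef, hk2def]
        congr 3
        push_cast
        ring
      rw [h2, h3] at h1
      have h4 : (2 / a) * (B * Real.exp (-(Real.exp (a * h) / 4))) ≤ (2 / a) * (1 / 100) :=
        mul_le_mul_of_nonneg_left hBe (by positivity)
      linarith
    · intro z hz1 hz2
      have h2 : ((((σ + 1 / a : ℝ) : ℂ) + ((τ + x : ℝ) : ℂ) * Complex.I) + z) ≠ 1 := by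
        intro he
        have := congrArg Complex.im he
        simp at this
        linarith [hz2.1, hx.1]
      have h3 := cor_ff_diff y h2
      exact h3.comp z ((differentiableAt_const _).add differentiableAt_id)
    · intro z hz1 hz2
      refine hB _ ?_ ?_ ?_
      · simp
        have := hz1.1
        simp at this
        linarith
      · simp
        exact hz1.2
      · have h5 : |z.im| ≤ h := hz2.le
        have h6 : |x| ≤ h := abs_le.2 ⟨by linarith [hx.1], hx.2⟩
        have h7 : (((((σ + 1 / a : ℝ) : ℂ) + ((τ + x : ℝ) : ℂ) * Complex.I) + z).im - τ) =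
            x + z.im := by
          simp
          ring
        rw [h7]
        calc |x + z.im| ≤ |x| + |z.im| := abs_add_le _ _
          _ ≤ 2 * h := by linarith
  -- integrate against the tent
  have hle : (-h) ≤ h := by linarith
  have huIcc : Set.uIcc (-h) h = Set.Icc (-h) h := Set.uIcc_of_le hle
  have htc : ContinuousOn (tent h) (Set.Icc (-h) h) := (tent_cont h).continuousOn
  have ht0 : ∀ x ∈ Set.Icc (-h) h, 0 ≤ tent h x := fun x hx =>
    tent_nonneg hh (abs_le.2 ⟨hx.1, hx.2⟩)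
  have hi1 : IntervalIntegrable (fun x => tent h x * J x) volume (-h) h := by
    refine ContinuousOn.intervalIntegrable ?_
    rw [huIcc]
    exact htc.mul hJc
  have hi2 : IntervalIntegrable (fun x => tent h x * ((2 / a) * (1 / 100))) volume (-h) h := by
    refine ContinuousOn.intervalIntegrable ?_
    rw [huIcc]
    exact htc.mul continuousOn_const
  have hi3 : IntervalIntegrable (fun x => ‖(tent h x : ℂ) * I1 x‖) volume (-h) h := by
    refine ContinuousOn.intervalIntegrable ?_
    rw [huIcc]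
    exact ((Complex.continuous_ofReal.comp_continuousOn htc).mul hI1c).norm
  have hup : ‖∫ x in (-h)..h, (tent h x : ℂ) * I1 x‖ ≤
      (∫ x in (-h)..h, tent h x * J x) + (2 / a) * (1 / 100) := by
    calc ‖∫ x in (-h)..h, (tent h x : ℂ) * I1 x‖
        ≤ ∫ x in (-h)..h, ‖(tent h x : ℂ) * I1 x‖ :=
          intervalIntegral.norm_integral_le_integral_norm hle
      _ ≤ ∫ x in (-h)..h, (tent h x * J x + tent h x * ((2 / a) * (1 / 100))) := by
          refine intervalIntegral.integral_mono_on hle hi3 (hi1.add hi2) ?_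
          intro x hx
          rw [norm_mul, Complex.norm_real, Real.norm_eq_abs, abs_of_nonneg (ht0 x hx), ← mul_add]
          exact mul_le_mul_of_nonneg_left (hpt x hx) (ht0 x hx)
      _ = (∫ x in (-h)..h, tent h x * J x) + (2 / a) * (1 / 100) := by
          rw [intervalIntegral.integral_add hi1 hi2, intervalIntegral.integral_mul_const,
            tent_int hh, one_mul]
  have hsr := swap_right hh N hN hN0 k2 hk2 hk20
  have hku : ∫ v in (-h)..h, k2 v ≤ 4 / a := kk_up ha hh
  set I : ℝ := ∫ w in (-(2 * h))..(2 * h), N w with hI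
  have hI0 : 0 ≤ I := intervalIntegral.integral_nonneg (by linarith) fun w _ => hN0 w
  have hup2 : ‖∫ x in (-h)..h, (tent h x : ℂ) * I1 x‖ ≤
      (1 / h) * (4 / a) * I + (2 / a) * (1 / 100) := by
    have h1 : (∫ x in (-h)..h, tent h x * J x) ≤ (1 / h) * (∫ v in (-h)..h, k2 v) * I := hsr
    have h2 : (1 / h) * (∫ v in (-h)..h, k2 v) * I ≤ (1 / h) * (4 / a) * I :=
      mul_le_mul_of_nonneg_right (mul_le_mul_of_nonneg_left hku (by positivity)) hI0
    linarith
  -- the lower bound
  have hsl := swap_left hh G hG k hk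
  set M : ℝ → ℂ := fun v => ∫ x in (-h)..h, (tent h x : ℂ) * G (v + x) with hM
  have hMc : ContinuousOn M (Set.Icc (-h) h) := by
    have h1 := inner_cont hh G hG (tent h) (tent_cont h)
    refine h1.congr fun v _ => ?_
    simp only [hM]
    congr 1
    funext x
    ring
  have hM1 : ∀ v ∈ Set.Icc (-h) h, ‖M v - 1‖ ≤ 1 / 4 := by
    intro v hv
    have h1 := hav y hy h hh (σ + 1 / a) hσ (τ + v)
    refine le_trans (le_of_eq ?_) (h1.trans herr)
    simp only [hM, hGdef]
    congr 2
    congr 1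
    funext x
    rw [add_assoc τ v x]
  have hki : IntervalIntegrable (fun v => ((k v : ℝ) : ℂ)) volume (-h) h :=
    (Complex.continuous_ofReal.comp hk).intervalIntegrable _ _
  have hkM : IntervalIntegrable (fun v => (k v : ℂ) * M v) volume (-h) h := by
    refine ContinuousOn.intervalIntegrable ?_
    rw [huIcc]
    exact ((Complex.continuous_ofReal.comp hk).continuousOn).mul hMc
  have hkr : IntervalIntegrable k volume (-h) h := hk.intervalIntegrable _ _
  have hlow0 : ‖(∫ v in (-h)..h, (k v : ℂ) * M v) - ∫ v in (-h)..h, (k v : ℂ)‖ ≤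
      (1 / 4) * ∫ v in (-h)..h, k v := by
    rw [← intervalIntegral.integral_sub hkM hki]
    calc ‖∫ v in (-h)..h, ((k v : ℂ) * M v - (k v : ℂ))‖
        ≤ ∫ v in (-h)..h, ‖(k v : ℂ) * M v - (k v : ℂ)‖ :=
          intervalIntegral.norm_integral_le_integral_norm hle
      _ ≤ ∫ v in (-h)..h, (1 / 4) * k v := by
          refine intervalIntegral.integral_mono_on hle ?_ (hkr.const_mul _) ?_
          · exact (hkM.sub hki).norm
          · intro v hv
            have h2 : (k v : ℂ) * M v - (k v : ℂ) = (k v : ℂ) * (M v - 1) := by ring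
            rw [h2, norm_mul, Complex.norm_real, Real.norm_eq_abs, abs_of_nonneg (hk0 v), mul_comm]
            exact mul_le_mul_of_nonneg_right (hM1 v hv) (hk0 v)
      _ = (1 / 4) * ∫ v in (-h)..h, k v := intervalIntegral.integral_const_mul _ _
  have hkl : 2 / (5 * a) ≤ ∫ v in (-h)..h, k v := kk_low ha hah
  have hlow : (3 / 4) * (2 / (5 * a)) ≤ ‖∫ v in (-h)..h, (k v : ℂ) * M v‖ := by
    have h1 : ‖∫ v in (-h)..h, (k v : ℂ)‖ = ∫ v in (-h)..h, k v := by
      rw [intervalIntegral.integral_ofReal, Complex.norm_real, Real.norm_eq_abs,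
        abs_of_nonneg (intervalIntegral.integral_nonneg hle fun v _ => hk0 v)]
    have h2 : ‖∫ v in (-h)..h, (k v : ℂ)‖ ≤
        ‖(∫ v in (-h)..h, (k v : ℂ) * M v) - ∫ v in (-h)..h, (k v : ℂ)‖ +
          ‖∫ v in (-h)..h, (k v : ℂ) * M v‖ := by
      have := norm_sub_le (∫ v in (-h)..h, (k v : ℂ) * M v)
        ((∫ v in (-h)..h, (k v : ℂ) * M v) - ∫ v in (-h)..h, (k v : ℂ))
      rw [sub_sub_cancel] at this
      linarith
    rw [h1] at h2
    linarith
  have hmain : (3 / 4) * (2 / (5 * a)) ≤ (1 / h) * (4 / a) * I + (2 / a) * (1 / 100) := by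
    refine hlow.trans ?_
    have : (∫ v in (-h)..h, (k v : ℂ) * M v) = ∫ x in (-h)..h, (tent h x : ℂ) * I1 x := hsl.symm
    rw [this]
    exact hup2
  have h9 : (3 / 4) * (2 / (5 * a)) * (a * h) ≤
      ((1 / h) * (4 / a) * I + (2 / a) * (1 / 100)) * (a * h) :=
    mul_le_mul_of_nonneg_right hmain (by positivity)
  have h10 : (3 / 4) * (2 / (5 * a)) * (a * h) = (3 / 10) * h := by
    field_simp; ring
  have h11 : ((1 / h) * (4 / a) * I + (2 / a) * (1 / 100)) * (a * h) = 4 * I + h / 50 := by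
    field_simp; ring
  rw [h10, h11] at h9
  linarith
-- END cor

end Pool.Agent.Zat
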