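import Pool.Agent.ZUni.Defs

/-!
# Lower bounds of `ζ` in short intervals, all `T` (MP_73417d_nt): definitions
-/

set_option autoImplicit false

open MeasureTheory

namespace Pool.Agent.Zat

/-- The product of `1 - p^{-s}` over the primes `p ≤ y`. -/
noncomputable def MM (y : ℕ) (s : ℂ) : ℂ :=
  ∏ p ∈ (Finset.range (y + 1)).filter Nat.Prime, (1 - (p : ℂ) ^ (-s))

/-- `ζ` without the primes `≤ y`. -/
noncomputable def ff (y : ℕ) (s : ℂ) : ℂ := riemannZeta s * MM y s

/-- The positive integers without a prime factor `≤ y`. -/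
def Rough (y n : ℕ) : Prop := n ≠ 0 ∧ ∀ p : ℕ, p.Prime → p ∣ n → y < p

/-- The tent of height `1/h` on `[-h, h]` (used only there). -/
noncomputable def tent (h x : ℝ) : ℝ := (1 - |x| / h) / h

/-- The kernel `exp (- cos (a z))`. -/
noncomputable def kk (a : ℝ) (z : ℂ) : ℂ := Complex.exp (-Complex.cos ((a : ℂ) * z))

end Pool.Agent.Zat
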