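import Pool.Agent.Zat.Mid2
import Pool.Agent.ZUni.RightAvg
import Pool.Agent.ZUni.LongI

/-!
# The theorem for all `T`, the refined form
-/

set_option autoImplicit false

open MeasureTheory

namespace Pool.Agent.Zat

-- BEGIN sh2
/-- `H ≤ 1`: `right_avg` for `σ > 1`, `tiny_log` and `mid_log` for `σ ≤ 1`
(`log (H log T + log log T) ≥ 1` for large `T`). -/
theorem short_T : ∃ c c₀ T₀ : ℝ, 0 < c ∧ 0 < c₀ ∧ ∀ T : ℝ, T₀ ≤ T → ∀ H : ℝ, 0 < H → H ≤ 1 →
    ∀ σ : ℝ, 1 - c₀ * H / Real.log (H * Real.log T + Real.log (Real.log T)) ≤ σ →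
      c * H ^ 2 ≤ ZUni.IZ σ T H := by
  obtain ⟨c1, hc1, hright⟩ := ZUni.right_avg
  obtain ⟨d, T1, hd, htiny⟩ := tiny_log
  obtain ⟨c2, c0, T2, hc2, hc0, hmid⟩ := mid_log d hd
  refine ⟨min c1 (min 1 c2), min 1 c0, max (max T1 T2) (Real.exp (Real.exp (Real.exp 1))),
    lt_min hc1 (lt_min one_pos hc2), lt_min one_pos hc0, ?_⟩
  intro T hT H hH hH1 σ hσ
  have hT1 : T1 ≤ T := (le_max_left _ _).trans ((le_max_left _ _).trans hT)
  have hT2 : T2 ≤ T := (le_max_right _ _).trans ((le_max_left _ _).trans hT)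
  have hT3 : Real.exp (Real.exp (Real.exp 1)) ≤ T := (le_max_right _ _).trans hT
  have hTp : 0 < T := (Real.exp_pos _).trans_le hT3
  have hl1 : Real.exp (Real.exp 1) ≤ Real.log T := (Real.le_log_iff_exp_le hTp).2 hT3
  have hlT : 0 < Real.log T := (Real.exp_pos _).trans_le hl1
  have hl2 : Real.exp 1 ≤ Real.log (Real.log T) := (Real.le_log_iff_exp_le hlT).2 hl1
  have hHT : 0 < H * Real.log T := mul_pos hH hlT
  have hsum : Real.exp 1 ≤ H * Real.log T + Real.log (Real.log T) := by linarith
  have hl3 : 1 ≤ Real.log (H * Real.log T + Real.log (Real.log T)) :=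
    (Real.le_log_iff_exp_le ((Real.exp_pos _).trans_le hsum)).2 hsum
  have hm := hmid T hT2 H hH
  generalize Real.log (H * Real.log T + Real.log (Real.log T)) = Lg at hσ hl3 hm
  have hLg : 0 < Lg := by linarith
  have hsq : 0 ≤ H ^ 2 := sq_nonneg H
  rcases lt_or_ge 1 σ with h | h
  · exact (mul_le_mul_of_nonneg_right (min_le_left _ _) hsq).trans (hright σ h T H hH hH1)
  · by_cases hs : H ≤ d / Real.log T ^ 9
    · have h1 : min 1 c0 * H / Lg ≤ H := by
        rw [div_le_iff₀ hLg]
        have h2 : min 1 c0 * H ≤ 1 * H := mul_le_mul_of_nonneg_right (min_le_left _ _) hH.le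
        have h3 : H * 1 ≤ H * Lg := mul_le_mul_of_nonneg_left hl3 hH.le
        linarith
      have h4 := htiny T hT1 H hH hs σ (by linarith) h
      refine (mul_le_mul_of_nonneg_right ((min_le_right _ _).trans (min_le_left _ _)) hsq).trans ?_
      rw [one_mul]
      exact h4
    · have h1 : min 1 c0 * H / Lg ≤ c0 * H / Lg := by
        have h2 : min 1 c0 * H ≤ c0 * H := mul_le_mul_of_nonneg_right (min_le_right _ _) hH.le
        exact div_le_div_of_nonneg_right h2 hLg.le
      have h4 := hm (le_of_lt (not_le.1 hs)) hH1 σ (by linarith) h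
      exact (mul_le_mul_of_nonneg_right ((min_le_right _ _).trans (min_le_right _ _)) hsq).trans h4
-- END sh2

-- BEGIN fn2
private theorem fn2_int (σ a b : ℝ) (ha : 0 < a) (hab : a ≤ b) :
    IntervalIntegrable (fun t : ℝ => ‖riemannZeta ((σ : ℂ) + (t : ℂ) * Complex.I)‖) volume a b := by
  apply ContinuousOn.intervalIntegrable
  apply ContinuousOn.norm
  intro t ht
  rw [Set.uIcc_of_le hab] at ht
  have h1 : ((σ : ℂ) + (t : ℂ) * Complex.I) ≠ 1 := by
    intro h
    have h2 := congrArg Complex.im h
    simp at h2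
    linarith [ht.1]
  apply ContinuousAt.continuousWithinAt
  have h3 : ContinuousAt riemannZeta ((σ : ℂ) + (t : ℂ) * Complex.I) :=
    (differentiableAt_riemannZeta h1).continuousAt
  exact ContinuousAt.comp (f := fun t : ℝ => ((σ : ℂ) + (t : ℂ) * Complex.I)) h3 (by fun_prop)

private theorem fn2_mono (σ T H H' : ℝ) (hT : 0 < T) (hH : 0 ≤ H) (hH' : H ≤ H') :
    ZUni.IZ σ T H ≤ ZUni.IZ σ T H' := by
  unfold ZUni.IZ
  have h1 := fn2_int σ T (T + H) hT (by linarith)
  have h2 := fn2_int σ (T + H) (T + H') (by linarith) (by linarith)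
  rw [← intervalIntegral.integral_add_adjacent_intervals h1 h2]
  have h3 : 0 ≤ ∫ t in (T + H)..(T + H'), ‖riemannZeta ((σ : ℂ) + (t : ℂ) * Complex.I)‖ :=
    intervalIntegral.integral_nonneg (by linarith) fun t _ => norm_nonneg _
  linarith

private theorem fn2_unit (σ T c : ℝ) (hT : 0 < T) (n : ℕ)
    (h : ∀ j : ℕ, j < n → c ≤ ZUni.IZ σ (T + j) 1) : n * c ≤ ZUni.IZ σ T n := by
  induction n with
  | zero =>
    unfold ZUni.IZ
    simp
  | succ n ih =>
    have h1 := ih fun j hj => h j (by omega)
    have h2 := h n (by omega)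
    have hn : (0 : ℝ) ≤ n := Nat.cast_nonneg n
    unfold ZUni.IZ at h1 h2 ⊢
    have h3 := fn2_int σ T (T + n) hT (by linarith)
    have h4 := fn2_int σ (T + n) (T + n + 1) (by linarith) (by linarith)
    have h5 := intervalIntegral.integral_add_adjacent_intervals h3 h4
    have h6 : T + ((n + 1 : ℕ) : ℝ) = T + n + 1 := by
      push_cast
      ring
    rw [h6, ← h5]
    push_cast
    linarith

private theorem fn2_loglog {T S : ℝ} (hT : Real.exp (Real.exp 1) ≤ T) (hS : T ≤ S)
    (hS2 : S ≤ 2 * T) : Real.exp 1 ≤ Real.log T ∧ 1 ≤ Real.log (Real.log T) ∧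
      Real.log (Real.log T) ≤ Real.log (Real.log T + Real.log (Real.log T)) ∧
      1 ≤ Real.log (Real.log S + Real.log (Real.log S)) ∧
      Real.log (Real.log S + Real.log (Real.log S)) ≤
        2 * Real.log (Real.log T + Real.log (Real.log T)) := by
  have hT0 : 0 < T := (Real.exp_pos _).trans_le hT
  have hlog : Real.exp 1 ≤ Real.log T := (Real.le_log_iff_exp_le hT0).2 hT
  have hl0 : 0 < Real.log T := (Real.exp_pos _).trans_le hlog
  have hll : 1 ≤ Real.log (Real.log T) := (Real.le_log_iff_exp_le hl0).2 hlog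
  have h1 : Real.log T ≤ Real.log S := Real.log_le_log hT0 hS
  have h2 : Real.log (Real.log T) ≤ Real.log (Real.log S) := Real.log_le_log hl0 h1
  have h3 : Real.log S ≤ Real.log 2 + Real.log T := by
    rw [← Real.log_mul (by norm_num) hT0.ne']
    exact Real.log_le_log (hT0.trans_le hS) hS2
  have h4 : (2 : ℝ) ≤ Real.exp 1 := by
    have := Real.add_one_le_exp (1 : ℝ)
    linarith
  have h5 : Real.log 2 ≤ 1 := by
    have := Real.log_two_lt_d9
    linarith
  have h6 : Real.log S ≤ Real.log T ^ 2 := by nlinarith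
  have h7 : Real.log (Real.log S) ≤ 2 * Real.log (Real.log T) := by
    calc Real.log (Real.log S) ≤ Real.log (Real.log T ^ 2) :=
          Real.log_le_log (hl0.trans_le h1) h6
      _ = 2 * Real.log (Real.log T) := by
          rw [Real.log_pow]
          norm_num
  have h8 : Real.log (Real.log T) ≤ Real.log (Real.log T + Real.log (Real.log T)) :=
    Real.log_le_log hl0 (by linarith)
  have h9 : Real.log (Real.log T + Real.log (Real.log T)) ≤
      Real.log (Real.log S + Real.log (Real.log S)) :=
    Real.log_le_log (by linarith) (by linarith)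
  refine ⟨hlog, hll, h8, by linarith, ?_⟩
  have h10 : Real.log S + Real.log (Real.log S) ≤
      (Real.log T + Real.log (Real.log T)) ^ 2 := by nlinarith
  calc Real.log (Real.log S + Real.log (Real.log S)) ≤
        Real.log ((Real.log T + Real.log (Real.log T)) ^ 2) :=
        Real.log_le_log (by linarith) h10
    _ = 2 * Real.log (Real.log T + Real.log (Real.log T)) := by
        rw [Real.log_pow]
        norm_num

/-- `H > 1`: if `H ≥ T^(1/2)` `Pool.Agent.ZUni.long_interval`; otherwise unit intervals `[T + j, T + j + 1]`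
and `short_T` with `H = 1` at `T + j ≤ 2 T` (half of the constant `c₀`). -/
theorem all_T' : ∃ c c₀ T₀ : ℝ, 0 < c ∧ 0 < c₀ ∧ ∀ T : ℝ, T₀ ≤ T → ∀ H : ℝ, 0 < H → ∀ σ : ℝ,
    1 - c₀ * min H 1 / Real.log (min H 1 * Real.log T + Real.log (Real.log T)) ≤ σ →
      c * min (H ^ 2) H ≤ ZUni.IZ σ T H := by
  obtain ⟨c, c0, T1, hc, hc0, h1⟩ := short_T
  obtain ⟨T2, h2⟩ := ZUni.long_interval (1 / 2) 1 (by norm_num) one_pos
  refine ⟨min (c / 2) (1 / 4), min (c0 / 2) 1, max (Real.exp (Real.exp 1)) (max T1 T2),
    lt_min (by positivity) (by norm_num), lt_min (by positivity) one_pos, ?_⟩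
  intro T hT H hH σ hσ
  have hTe : Real.exp (Real.exp 1) ≤ T := (le_max_left _ _).trans hT
  have hT1 : T1 ≤ T :=
    (le_max_left _ _).trans ((le_max_right _ _).trans hT)
  have hT2 : T2 ≤ T :=
    (le_max_right _ _).trans ((le_max_right _ _).trans hT)
  have hT0 : 0 < T := (Real.exp_pos _).trans_le hTe
  obtain ⟨hlog, hll, hlll, -, -⟩ := fn2_loglog hTe le_rfl (by linarith)
  have hl0 : 0 < Real.log T := (Real.exp_pos _).trans_le hlog
  rcases le_total H 1 with hH1 | hH1
  · rw [min_eq_left hH1] at hσ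
    have h3 : H ^ 2 ≤ H := by nlinarith
    rw [min_eq_left h3]
    have hpos : 0 ≤ Real.log (H * Real.log T + Real.log (Real.log T)) := by
      apply Real.log_nonneg
      have := mul_pos hH hl0
      linarith
    have h4 : 1 - c0 * H / Real.log (H * Real.log T + Real.log (Real.log T)) ≤ σ := by
      refine le_trans ?_ hσ
      have h5 : min (c0 / 2) 1 * H / Real.log (H * Real.log T + Real.log (Real.log T)) ≤
          c0 * H / Real.log (H * Real.log T + Real.log (Real.log T)) := by
        apply div_le_div_of_nonneg_right _ hpos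
        apply mul_le_mul_of_nonneg_right _ hH.le
        exact (min_le_left _ _).trans (by linarith)
      linarith
    have h5 := h1 T hT1 H hH hH1 σ h4
    have h6 : min (c / 2) (1 / 4) * H ^ 2 ≤ c * H ^ 2 := by
      apply mul_le_mul_of_nonneg_right _ (by positivity)
      exact (min_le_left _ _).trans (by linarith)
    linarith
  · rw [min_eq_right hH1, mul_one, one_mul] at hσ
    have h3 : H ≤ H ^ 2 := by nlinarith
    rw [min_eq_right h3]
    rcases le_total (T ^ (1 / 2 : ℝ)) H with hl | hl
    · have h4 : 1 - 1 / Real.log (Real.log T) ≤ σ := by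
        refine le_trans ?_ hσ
        have h5 : min (c0 / 2) 1 / Real.log (Real.log T + Real.log (Real.log T)) ≤
            1 / Real.log (Real.log T) := by
          rw [div_le_div_iff₀ (by linarith) (by linarith)]
          have h6 : min (c0 / 2) 1 * Real.log (Real.log T) ≤ 1 * Real.log (Real.log T) :=
            mul_le_mul_of_nonneg_right (min_le_right _ _) (by linarith)
          linarith
        linarith
      have h5 := h2 T hT2 H hl σ h4
      have h6 : min (c / 2) (1 / 4) * H ≤ 1 / 4 * H :=
        mul_le_mul_of_nonneg_right (min_le_right _ _) hH.le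
      linarith
    · have hT1' : 1 ≤ T := by
        have : (1 : ℝ) ≤ Real.exp (Real.exp 1) := Real.one_le_exp (Real.exp_pos _).le
        linarith
      have hHT : H ≤ T := by
        refine hl.trans ?_
        calc T ^ (1 / 2 : ℝ) ≤ T ^ (1 : ℝ) := Real.rpow_le_rpow_of_exponent_le hT1' (by norm_num)
          _ = T := Real.rpow_one T
      have hn1 : (⌊H⌋₊ : ℝ) ≤ H := Nat.floor_le hH.le
      have hn2 : H < (⌊H⌋₊ : ℝ) + 1 := Nat.lt_floor_add_one H
      have hn3 : (1 : ℝ) ≤ ⌊H⌋₊ := by
        have : 1 ≤ ⌊H⌋₊ := Nat.le_floor (by simpa using hH1)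
        exact_mod_cast this
      have h4 : (⌊H⌋₊ : ℝ) * c ≤ ZUni.IZ σ T ⌊H⌋₊ := by
        apply fn2_unit σ T c hT0
        intro j hj
        have hj0 : (0 : ℝ) ≤ j := Nat.cast_nonneg j
        have hj1 : (j : ℝ) ≤ T := by
          have : (j : ℝ) ≤ ⌊H⌋₊ := by exact_mod_cast hj.le
          linarith
        obtain ⟨-, -, -, hlS, hS⟩ := fn2_loglog (S := T + j) hTe (by linarith) (by linarith)
        have h5 := h1 (T + j) (by linarith) 1 one_pos le_rfl σ (by
          rw [one_mul]
          refine le_trans ?_ hσ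
          have h6 : min (c0 / 2) 1 / Real.log (Real.log T + Real.log (Real.log T)) ≤
              c0 * 1 / Real.log (Real.log (T + j) + Real.log (Real.log (T + j))) := by
            rw [div_le_div_iff₀ (by linarith) (by linarith)]
            have h7 : min (c0 / 2) 1 ≤ c0 / 2 := min_le_left _ _
            have h8 : min (c0 / 2) 1 *
                Real.log (Real.log (T + j) + Real.log (Real.log (T + j))) ≤
                c0 / 2 * Real.log (Real.log (T + j) + Real.log (Real.log (T + j))) :=
              mul_le_mul_of_nonneg_right h7 (by linarith)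
            have h9 : c0 / 2 * Real.log (Real.log (T + j) + Real.log (Real.log (T + j))) ≤
                c0 / 2 * (2 * Real.log (Real.log T + Real.log (Real.log T))) :=
              mul_le_mul_of_nonneg_left hS (by positivity)
            linarith
          linarith)
        rw [one_pow, mul_one] at h5
        exact h5
      have h5 := fn2_mono σ T ⌊H⌋₊ H hT0 (by linarith) hn1
      have h6 : min (c / 2) (1 / 4) * H ≤ c / 2 * H :=
        mul_le_mul_of_nonneg_right (min_le_left _ _) hH.le
      have h7 : c / 2 * H ≤ ⌊H⌋₊ * c := by nlinarith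
      linarith
-- END fn2

end Pool.Agent.Zat
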