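import Pool.Agent.Zat.Defs
import Pool.Agent.SWz.Iface
import Pool.Agent.SWz.ZetaCont

/-!
# A logarithmic upper bound
-/

set_option autoImplicit false

open MeasureTheory

namespace Pool.Agent.Zat

-- BEGIN zlb
private theorem zlb_sum (δ : ℝ) (hδ : 0 ≤ δ) (N : ℕ) (hN : 1 ≤ N) (s : ℂ) (hs : 1 - δ ≤ s.re) :
    ‖∑ n ∈ Finset.Icc 1 N, (n : ℂ) ^ (-s)‖ ≤ (N : ℝ) ^ δ * (1 + Real.log N) := by
  have hNpos : (0 : ℝ) < (N : ℝ) := by
    have : 0 < N := hN
    exact_mod_cast this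
  have hN1 : (1 : ℝ) ≤ (N : ℝ) := by exact_mod_cast hN
  have h1 : ‖∑ n ∈ Finset.Icc 1 N, (n : ℂ) ^ (-s)‖ ≤
      ∑ n ∈ Finset.Icc 1 N, (N : ℝ) ^ δ * ((n : ℝ)⁻¹) := by
    refine (norm_sum_le _ _).trans (Finset.sum_le_sum ?_)
    intro n hn
    rw [Finset.mem_Icc] at hn
    have hn0 : 0 < n := hn.1
    have hnpos : (0 : ℝ) < (n : ℝ) := by exact_mod_cast hn0
    have hn1 : (1 : ℝ) ≤ (n : ℝ) := by exact_mod_cast hn.1
    have hnN : (n : ℝ) ≤ (N : ℝ) := by exact_mod_cast hn.2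
    rw [Complex.norm_natCast_cpow_of_pos hn0]
    calc (n : ℝ) ^ (-s).re ≤ (n : ℝ) ^ (δ + (-1 : ℝ)) := by
          apply Real.rpow_le_rpow_of_exponent_le hn1
          rw [Complex.neg_re]
          linarith
      _ = (n : ℝ) ^ δ * (n : ℝ)⁻¹ := by
          rw [Real.rpow_add hnpos, Real.rpow_neg_one]
      _ ≤ (N : ℝ) ^ δ * (n : ℝ)⁻¹ := by
          apply mul_le_mul_of_nonneg_right _ (by positivity)
          exact Real.rpow_le_rpow hnpos.le hnN hδ
  have h2 : ∑ n ∈ Finset.Icc 1 N, (n : ℝ)⁻¹ ≤ 1 + Real.log N := by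
    have h := harmonic_le_one_add_log N
    rw [harmonic_eq_sum_Icc] at h
    push_cast at h
    exact h
  rw [← Finset.mul_sum] at h1
  exact h1.trans (mul_le_mul_of_nonneg_left h2 (by positivity))

/-- the proof of `Pool.Agent.SWz.zgrow` with `|∑_{n ≤ N} n^{-s}| ≤ N^δ (1 + log N)` -/
theorem zeta_log (δ : ℝ) (hδ : 0 ≤ δ) (hδ' : δ ≤ 1 / 4) (s : ℂ) (hs1 : 1 - δ ≤ s.re)
    (hs3 : s.re ≤ 3) (hs0 : 2 ≤ |s.im|) :
    ‖riemannZeta s‖ ≤ 20 * (|s.im| + 2) ^ δ * Real.log (|s.im| + 2) := by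
  set t : ℝ := |s.im| with ht
  have htpos : 0 < t := by linarith
  set T : ℝ := t + 2 with hT
  have hT4 : 4 ≤ T := by linarith
  have hT0 : 0 < T := by linarith
  have hT1 : 1 ≤ T := by linarith
  set N : ℕ := ⌊T⌋₊ with hN
  have hNT : (N : ℝ) ≤ T := Nat.floor_le hT0.le
  have hNT2 : T < (N : ℝ) + 1 := Nat.lt_floor_add_one T
  have hN2 : T / 2 ≤ (N : ℝ) := by linarith
  have hN1 : 1 ≤ N := by
    have : (1 : ℝ) ≤ (N : ℝ) := by linarith
    exact_mod_cast this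
  have hNpos : (0 : ℝ) < (N : ℝ) := by linarith
  have hσ : 3 / 4 ≤ s.re := by linarith
  have hσ0 : 0 < s.re := by linarith
  have hsne : s ≠ 1 := by
    intro h
    rw [ht, h] at htpos
    simp at htpos
  have hmain := Pool.Agent.SWz.zeta_cont s hσ0 hsne N hN1
  have hA := zlb_sum δ hδ N hN1 s hs1
  have hpow : (N : ℝ) ^ δ ≤ T ^ δ := Real.rpow_le_rpow hNpos.le hNT hδ
  have hTpos : 0 < T ^ δ := by positivity
  have hlogN : Real.log N ≤ Real.log T := Real.log_le_log hNpos hNT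
  have hlogT : 1 ≤ Real.log T := by
    rw [Real.le_log_iff_exp_le hT0]
    have := Real.exp_one_lt_d9
    linarith
  have hlogN0 : 0 ≤ Real.log N := Real.log_nonneg (by exact_mod_cast hN1)
  -- second term
  have hB : ‖((N : ℂ) + 1) ^ (1 - s) / (s - 1)‖ ≤ T ^ δ := by
    have e1 : ((N : ℂ) + 1) = (((N : ℝ) + 1 : ℝ) : ℂ) := by push_cast; ring
    have hNp : (0 : ℝ) < (N : ℝ) + 1 := by linarith
    rw [norm_div, e1, Complex.norm_cpow_eq_rpow_re_of_pos hNp]
    have h1 : t ≤ ‖s - 1‖ := by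
      have := Complex.abs_im_le_norm (s - 1)
      simpa [ht] using this
    have h2 : ((N : ℝ) + 1) ^ (1 - s).re ≤ 2 * T ^ δ := by
      calc ((N : ℝ) + 1) ^ (1 - s).re ≤ ((N : ℝ) + 1) ^ δ := by
            apply Real.rpow_le_rpow_of_exponent_le (by linarith)
            simp only [Complex.sub_re, Complex.one_re]
            linarith
        _ ≤ (2 * T) ^ δ := Real.rpow_le_rpow hNp.le (by linarith) hδ
        _ = 2 ^ δ * T ^ δ := Real.mul_rpow (by norm_num) hT0.le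
        _ ≤ 2 * T ^ δ := by
            apply mul_le_mul_of_nonneg_right _ (by positivity)
            calc (2 : ℝ) ^ δ ≤ 2 ^ (1 : ℝ) :=
                  Real.rpow_le_rpow_of_exponent_le (by norm_num) (by linarith)
              _ = 2 := Real.rpow_one 2
    have h3 : 0 < ‖s - 1‖ := lt_of_lt_of_le htpos h1
    rw [div_le_iff₀ h3]
    nlinarith
  -- third term
  have hC : 3 * ‖s‖ * (N : ℝ) ^ (-s.re) / s.re ≤ 16 * T ^ δ := by
    have h1 : ‖s‖ ≤ 2 * T := by
      have := Complex.norm_le_abs_re_add_abs_im s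
      rw [abs_of_pos hσ0] at this
      calc ‖s‖ ≤ s.re + |s.im| := this
        _ ≤ 2 * T := by
          rw [← ht]
          linarith
    have h2 : (N : ℝ) ^ (-s.re) ≤ 2 * T ^ δ / T := by
      calc (N : ℝ) ^ (-s.re) ≤ (N : ℝ) ^ (δ + (-1 : ℝ)) := by
            apply Real.rpow_le_rpow_of_exponent_le (by exact_mod_cast hN1)
            linarith
        _ = (N : ℝ) ^ δ * (N : ℝ)⁻¹ := by
            rw [Real.rpow_add hNpos, Real.rpow_neg_one]
        _ ≤ T ^ δ * (T / 2)⁻¹ := by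
            apply mul_le_mul hpow
            · exact inv_anti₀ (by positivity) hN2
            · positivity
            · positivity
        _ = 2 * T ^ δ / T := by
            field_simp
    rw [div_le_iff₀ hσ0]
    have h3 : 3 * ‖s‖ * (N : ℝ) ^ (-s.re) ≤ 3 * (2 * T) * (2 * T ^ δ / T) := by
      gcongr
    have h4 : 3 * (2 * T) * (2 * T ^ δ / T) = 12 * T ^ δ := by
      field_simp
      ring
    rw [h4] at h3
    nlinarith
  have hz : ‖riemannZeta s‖ ≤ T ^ δ * (1 + Real.log T) + T ^ δ + 16 * T ^ δ := by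
    have e : riemannZeta s = (riemannZeta s - ∑ n ∈ Finset.Icc 1 N, (n : ℂ) ^ (-s) -
        ((N : ℂ) + 1) ^ (1 - s) / (s - 1)) + ∑ n ∈ Finset.Icc 1 N, (n : ℂ) ^ (-s) +
        ((N : ℂ) + 1) ^ (1 - s) / (s - 1) := by ring
    rw [e]
    refine (norm_add₃_le).trans ?_
    have h1 : (N : ℝ) ^ δ * (1 + Real.log N) ≤ T ^ δ * (1 + Real.log T) :=
      mul_le_mul hpow (by linarith) (by linarith) hTpos.le
    linarith
  refine hz.trans ?_
  nlinarith
-- END zlb

end Pool.Agent.Zat
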