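import Pool.Agent.Zat.Log
import Pool.Agent.MP_018e62_nt.ZetaLower

/-!
# A lower bound near the line `Re s = 1`
-/

set_option autoImplicit false

open MeasureTheory

namespace Pool.Agent.Zat

-- BEGIN llo
/-- Idea: `L = log t`, `x₀ = c L^{-9}`, `c = 1/(2560 · 8800^4)`. `product_ge_one` and `norm_zeta_real_le` of
`Pool/Agent/MP_018e62_nt/ZetaLower.lean` and `zeta_log` with `δ = 0` (`log (2t+2) ≤ 2 L`) give
`‖ζ(1+x₀+it)‖^4 ≥ x₀³ / (2560 L) = (c³/2560) L^{-28}`, so `‖ζ(1+x₀+it)‖ ≥ 8800 c L^{-7}`. On discs of radius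
`1/L` around the points `z` with `1 - x₀ ≤ Re z ≤ 1 + x₀`, `Im z = t`, `zeta_log` with `δ = 2/L` gives
`‖ζ‖ ≤ 20 (t+4)^(2/L) 2L ≤ 40 e^4 L`, so `‖ζ'(z)‖ ≤ 2200 L²` (Cauchy), and
`‖ζ(σ+it) - ζ(1+x₀+it)‖ ≤ 2 x₀ 2200 L² = 4400 c L^{-7}`. -/
theorem low_log : ∃ c T₀ : ℝ, 0 < c ∧ ∀ t : ℝ, T₀ ≤ t → ∀ σ : ℝ, 1 - c / Real.log t ^ 9 ≤ σ → σ ≤ 1 →
    c / Real.log t ^ 7 ≤ ‖riemannZeta ((σ : ℂ) + (t : ℂ) * Complex.I)‖ := by
  have hc0p : (0 : ℝ) < 1 / (2560 * 8800 ^ 4) := by positivity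
  have hc0s : (1 : ℝ) / (2560 * 8800 ^ 4) * 8800 ^ 4 = 1 / 2560 := by norm_num
  have hc01 : (1 : ℝ) / (2560 * 8800 ^ 4) ≤ 1 := by norm_num
  generalize (1 : ℝ) / (2560 * 8800 ^ 4) = c0 at hc0p hc0s hc01
  refine ⟨c0, Real.exp 8, hc0p, ?_⟩
  intro t ht σ hσ1 hσ2
  have ht9 : (9 : ℝ) ≤ t := by
    have := Real.add_one_le_exp (8 : ℝ)
    linarith
  have ht0 : 0 < t := by linarith
  have hL8 : 8 ≤ Real.log t := (Real.le_log_iff_exp_le ht0).2 ht
  have hlogsq : Real.log (t ^ 2) = 2 * Real.log t := by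
    rw [Real.log_pow]; norm_num
  have hlog4 : Real.log (t + 4) ≤ 2 * Real.log t := by
    rw [← hlogsq]
    exact Real.log_le_log (by linarith) (by nlinarith)
  have hlog2 : Real.log (2 * t + 2) ≤ 2 * Real.log t := by
    rw [← hlogsq]
    exact Real.log_le_log (by linarith) (by nlinarith)
  set L : ℝ := Real.log t with hL
  have hLp : 0 < L := by linarith
  set x0 : ℝ := c0 / L ^ 9 with hx0
  have hx0p : 0 < x0 := by positivity
  have hx0L : x0 ≤ 1 / L := by
    rw [hx0, div_le_div_iff₀ (by positivity) hLp]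
    have h1 : (1 : ℝ) ≤ L ^ 8 := one_le_pow₀ (by linarith)
    have h2 : L ^ 9 = L ^ 8 * L := by ring
    rw [h2, one_mul]
    have h3 : 1 * L ≤ L ^ 8 * L := mul_le_mul_of_nonneg_right h1 hLp.le
    nlinarith
  have h1L : 1 / L ≤ 1 / 8 := one_div_le_one_div_of_le (by norm_num) hL8
  -- upper bound near the line
  have hdisc : ∀ w : ℂ, 1 - 2 / L ≤ w.re → w.re ≤ 3 → |w.im - t| ≤ 1 →
      ‖riemannZeta w‖ ≤ 2200 * L := by
    intro w hw1 hw2 hw3
    have h3 := abs_le.1 hw3
    have h4 : 2 ≤ |w.im| := by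
      rw [abs_of_pos (by linarith)]; linarith
    have h5 : |w.im| + 2 ≤ t + 4 := by
      rw [abs_of_pos (by linarith)]; linarith
    have hd0 : 0 ≤ 2 / L := by positivity
    have hd1 : 2 / L ≤ 1 / 4 := by
      rw [div_le_div_iff₀ hLp (by norm_num)]; linarith
    have h6 := zeta_log (2 / L) hd0 hd1 w hw1 hw2 h4
    have h7 : (|w.im| + 2) ^ (2 / L) ≤ Real.exp 4 := by
      calc (|w.im| + 2) ^ (2 / L) ≤ (t + 4) ^ (2 / L) :=
            Real.rpow_le_rpow (by positivity) h5 hd0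
        _ = Real.exp (Real.log (t + 4) * (2 / L)) := Real.rpow_def_of_pos (by linarith) _
        _ ≤ Real.exp 4 := by
          apply Real.exp_le_exp.2
          calc Real.log (t + 4) * (2 / L) ≤ 2 * L * (2 / L) :=
                mul_le_mul_of_nonneg_right hlog4 hd0
            _ = 4 := by field_simp; norm_num
    have h8 : Real.exp 4 ≤ 55 := by
      have h9 : Real.exp 4 = Real.exp 1 ^ 4 := by
        rw [← Real.exp_nat_mul]; norm_num
      rw [h9]
      have h10 : Real.exp 1 ^ 4 ≤ (2.7182818286 : ℝ) ^ 4 :=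
        pow_le_pow_left₀ (Real.exp_pos 1).le Real.exp_one_lt_d9.le 4
      refine h10.trans ?_
      norm_num
    have h11 : Real.log (|w.im| + 2) ≤ 2 * L :=
      (Real.log_le_log (by positivity) h5).trans hlog4
    have h12 : 0 ≤ Real.log (|w.im| + 2) := Real.log_nonneg (by linarith [abs_nonneg w.im])
    calc ‖riemannZeta w‖ ≤ 20 * (|w.im| + 2) ^ (2 / L) * Real.log (|w.im| + 2) := h6
      _ ≤ 20 * 55 * (2 * L) := by
        apply mul_le_mul _ h11 h12 (by norm_num)
        exact mul_le_mul_of_nonneg_left (h7.trans h8) (by norm_num)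
      _ = 2200 * L := by ring
  -- derivative
  have hderiv : ∀ z : ℂ, 1 - x0 ≤ z.re → z.re ≤ 1 + x0 → z.im = t →
      ‖deriv riemannZeta z‖ ≤ 2200 * L ^ 2 := by
    intro z hz1 hz2 hz3
    have hR : 0 < 1 / L := by positivity
    have hcl : ∀ w ∈ Metric.closedBall z (1 / L), |w.re - z.re| ≤ 1 / L ∧ |w.im - t| ≤ 1 / L := by
      intro w hw
      rw [Metric.mem_closedBall, dist_eq_norm] at hw
      refine ⟨?_, ?_⟩
      · have := Complex.abs_re_le_norm (w - z)
        rw [Complex.sub_re] at this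
        linarith
      · have := Complex.abs_im_le_norm (w - z)
        rw [Complex.sub_im, hz3] at this
        linarith
    have hd : DifferentiableOn ℂ riemannZeta (Metric.closedBall z (1 / L)) := by
      intro w hw
      have h1 := abs_le.1 (hcl w hw).2
      apply (differentiableAt_riemannZeta ?_).differentiableWithinAt
      intro h
      rw [h, Complex.one_im] at h1
      linarith [h1.1]
    have h2 := Complex.norm_deriv_le_of_forall_mem_sphere_norm_le (c := z) (R := 1 / L)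
      (C := 2200 * L) (f := riemannZeta) hR
      (hd.diffContOnCl_ball subset_rfl) (by
        intro w hw
        have hw' := hcl w (Metric.sphere_subset_closedBall hw)
        have h3 := abs_le.1 hw'.1
        have h4 : 2 / L = 1 / L + 1 / L := by ring
        apply hdisc w
        · rw [h4]; linarith
        · linarith
        · linarith [hw'.2])
    calc ‖deriv riemannZeta z‖ ≤ 2200 * L / (1 / L) := h2
      _ = 2200 * L ^ 2 := by field_simp
  -- the lower bound at `1 + x0 + i t`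
  have hz3 : ‖riemannZeta ((1 + x0 : ℝ) : ℂ)‖ ≤ 4 / x0 :=
    MP_018e62_nt.norm_zeta_real_le hx0p (by linarith)
  have hz2 : ‖riemannZeta ((1 + x0 : ℝ) + ((2 * t : ℝ) : ℂ) * Complex.I)‖ ≤ 40 * L := by
    have hre : (((1 + x0 : ℝ) : ℂ) + ((2 * t : ℝ) : ℂ) * Complex.I).re = 1 + x0 := by simp
    have him : (((1 + x0 : ℝ) : ℂ) + ((2 * t : ℝ) : ℂ) * Complex.I).im = 2 * t := by simp
    have h1 := zeta_log 0 le_rfl (by norm_num)
      (((1 + x0 : ℝ) : ℂ) + ((2 * t : ℝ) : ℂ) * Complex.I)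
      (by rw [hre]; linarith) (by rw [hre]; linarith)
      (by rw [him, abs_of_pos (by linarith)]; linarith)
    rw [him, abs_of_pos (by linarith), Real.rpow_zero, mul_one] at h1
    linarith
  have hpr := MP_018e62_nt.product_ge_one hx0p t
  have hlow : 8800 * c0 / L ^ 7 ≤ ‖riemannZeta ((1 + x0 : ℝ) + (t : ℂ) * Complex.I)‖ := by
    set Z : ℝ := ‖riemannZeta ((1 + x0 : ℝ) + (t : ℂ) * Complex.I)‖ ^ 4 with hZ
    have hZ0 : 0 ≤ Z := by positivity
    have h4 : 1 ≤ (4 / x0) ^ 3 * Z * (40 * L) := by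
      refine hpr.trans ?_
      apply mul_le_mul _ hz2 (norm_nonneg _) (by positivity)
      exact mul_le_mul_of_nonneg_right (pow_le_pow_left₀ (norm_nonneg _) hz3 3) hZ0
    have h5 : (4 / x0) ^ 3 * Z * (40 * L) = Z * (2560 * L) / x0 ^ 3 := by
      field_simp
      ring
    rw [h5, le_div_iff₀ (by positivity), one_mul] at h4
    have h6 : (8800 * c0 / L ^ 7) ^ 4 * (2560 * L) = x0 ^ 3 := by
      rw [hx0]
      have h7 : (8800 * c0 / L ^ 7) ^ 4 * (2560 * L) =
          (c0 * 8800 ^ 4) * 2560 * c0 ^ 3 * (L / L ^ 28) := by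
        field_simp
      have h8 : L / L ^ 28 = 1 / L ^ 27 := by
        field_simp
      rw [h7, hc0s, h8]
      field_simp
    have h9 : (8800 * c0 / L ^ 7) ^ 4 * (2560 * L) ≤ Z * (2560 * L) := by
      rw [h6]; exact h4
    have h10 : (8800 * c0 / L ^ 7) ^ 4 ≤ Z := le_of_mul_le_mul_right h9 (by positivity)
    exact le_of_pow_le_pow_left₀ (by norm_num) (norm_nonneg _) h10
  -- the difference
  have hconv : Convex ℝ (Set.Icc (1 - x0) (1 + x0) ×ℂ {t}) :=
    Convex.inter ((convex_Icc _ _).linear_preimage Complex.reLm)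
      ((convex_singleton _).linear_preimage Complex.imLm)
  have hm1 : ((σ : ℂ) + (t : ℂ) * Complex.I) ∈ (Set.Icc (1 - x0) (1 + x0) ×ℂ {t}) := by
    rw [Complex.mem_reProdIm]
    constructor
    · simp only [Complex.add_re, Complex.ofReal_re, Complex.mul_re, Complex.I_re, Complex.I_im,
        Complex.ofReal_im, mul_zero, zero_mul, sub_zero, add_zero, Set.mem_Icc]
      constructor <;> linarith
    · simp
  have hm2 : (((1 + x0 : ℝ) : ℂ) + (t : ℂ) * Complex.I) ∈
      (Set.Icc (1 - x0) (1 + x0) ×ℂ {t}) := by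
    rw [Complex.mem_reProdIm]
    constructor
    · simp only [Complex.add_re, Complex.ofReal_re, Complex.mul_re, Complex.I_re, Complex.I_im,
        Complex.ofReal_im, mul_zero, zero_mul, sub_zero, add_zero, Set.mem_Icc]
      constructor <;> linarith
    · simp
  have hdiff := Convex.norm_image_sub_le_of_norm_deriv_le (𝕜 := ℂ) (f := riemannZeta)
    (C := 2200 * L ^ 2) (s := (Set.Icc (1 - x0) (1 + x0) ×ℂ {t}))
    (x := ((σ : ℂ) + (t : ℂ) * Complex.I)) (y := (((1 + x0 : ℝ) : ℂ) + (t : ℂ) * Complex.I))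
    (by
      intro z hz
      rw [Complex.mem_reProdIm] at hz
      apply differentiableAt_riemannZeta
      intro h
      have h1 : z.im = t := hz.2
      rw [h, Complex.one_im] at h1
      linarith)
    (by
      intro z hz
      rw [Complex.mem_reProdIm] at hz
      exact hderiv z hz.1.1 hz.1.2 hz.2)
    hconv hm1 hm2
  have hn : ‖(((1 + x0 : ℝ) : ℂ) + (t : ℂ) * Complex.I) - ((σ : ℂ) + (t : ℂ) * Complex.I)‖ ≤
      2 * x0 := by
    have h1 : (((1 + x0 : ℝ) : ℂ) + (t : ℂ) * Complex.I) - ((σ : ℂ) + (t : ℂ) * Complex.I) =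
        ((1 + x0 - σ : ℝ) : ℂ) := by
      push_cast; ring
    rw [h1, Complex.norm_real, Real.norm_eq_abs, abs_of_nonneg (by linarith)]
    linarith
  have h1 : 2200 * L ^ 2 * (2 * x0) = 4400 * c0 / L ^ 7 := by
    rw [hx0]
    field_simp
    ring
  have h2 : ‖riemannZeta (((1 + x0 : ℝ) : ℂ) + (t : ℂ) * Complex.I) -
      riemannZeta ((σ : ℂ) + (t : ℂ) * Complex.I)‖ ≤ 4400 * c0 / L ^ 7 := by
    rw [← h1]
    exact hdiff.trans (mul_le_mul_of_nonneg_left hn (by positivity))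
  have h3 := norm_sub_norm_le (riemannZeta (((1 + x0 : ℝ) : ℂ) + (t : ℂ) * Complex.I))
    (riemannZeta ((σ : ℂ) + (t : ℂ) * Complex.I))
  have h4 : 8800 * c0 / L ^ 7 = 4400 * c0 / L ^ 7 + 4400 * (c0 / L ^ 7) := by ring
  have h5 : 0 < c0 / L ^ 7 := by positivity
  linarith
-- END llo

-- BEGIN tn2
/-- from `low_log` with `log t ≤ 2 log T` for `T ≤ t ≤ T + 1` -/
theorem tiny_log : ∃ c T₀ : ℝ, 0 < c ∧ ∀ T : ℝ, T₀ ≤ T → ∀ H : ℝ, 0 < H → H ≤ c / Real.log T ^ 9 →
    ∀ σ : ℝ, 1 - H ≤ σ → σ ≤ 1 → H ^ 2 ≤ ZUni.IZ σ T H := by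
  obtain ⟨c, T₀, hc, hlow⟩ := low_log
  have hc1 : 0 < min c 1 / 512 := by positivity
  refine ⟨min c 1 / 512, max T₀ (Real.exp 1), hc1, ?_⟩
  intro T hT H hH0 hH1 σ hσ1 hσ2
  have hT0 : T₀ ≤ T := (le_max_left _ _).trans hT
  have hTe : Real.exp 1 ≤ T := (le_max_right _ _).trans hT
  have hT2 : 2 ≤ T := by
    have := Real.add_one_le_exp (1 : ℝ)
    linarith
  have hTp : 0 < T := by linarith
  have hlog1 : 1 ≤ Real.log T := (Real.le_log_iff_exp_le hTp).2 hTe
  set L : ℝ := Real.log T with hL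
  have hLp : 0 < L := by linarith
  have hmc : min c 1 ≤ c := min_le_left _ _
  have hm1 : min c 1 ≤ 1 := min_le_right _ _
  have hmp : 0 < min c 1 := by positivity
  have hH9 : H ≤ c / (512 * L ^ 9) := by
    refine hH1.trans ?_
    rw [div_div]
    exact div_le_div_of_nonneg_right hmc (by positivity)
  have hHle1 : H ≤ 1 := by
    refine hH1.trans ?_
    rw [div_div, div_le_one (by positivity)]
    have : (1 : ℝ) ≤ L ^ 9 := one_le_pow₀ hlog1
    nlinarith
  have hpt : ∀ t ∈ Set.Icc T (T + H), H ≤ ‖riemannZeta ((σ : ℂ) + (t : ℂ) * Complex.I)‖ := by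
    intro t ht
    have htp : 0 < t := by linarith [ht.1]
    have hlt : Real.log t ≤ 2 * L := by
      have h1 : Real.log (T ^ 2) = 2 * L := by
        rw [Real.log_pow, hL]; norm_num
      rw [← h1]
      apply Real.log_le_log htp
      nlinarith [ht.2]
    have hlt1 : 1 ≤ Real.log t := hlog1.trans (Real.log_le_log hTp ht.1)
    have hltp : 0 < Real.log t := by linarith
    have h9 : Real.log t ^ 9 ≤ 512 * L ^ 9 := by
      calc Real.log t ^ 9 ≤ (2 * L) ^ 9 := pow_le_pow_left₀ hltp.le hlt 9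
        _ = 512 * L ^ 9 := by ring
    have h7 : Real.log t ^ 7 ≤ 512 * L ^ 9 := by
      refine le_trans ?_ h9
      exact pow_le_pow_right₀ hlt1 (by norm_num)
    have h1 : c / (512 * L ^ 9) ≤ c / Real.log t ^ 9 :=
      div_le_div_of_nonneg_left hc.le (by positivity) h9
    have h2 : c / (512 * L ^ 9) ≤ c / Real.log t ^ 7 :=
      div_le_div_of_nonneg_left hc.le (by positivity) h7
    have h3 := hlow t (hT0.trans ht.1) σ (by linarith) hσ2
    linarith
  unfold ZUni.IZ
  have hcont : ContinuousOn (fun t : ℝ => ‖riemannZeta ((σ : ℂ) + (t : ℂ) * Complex.I)‖)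
      (Set.uIcc T (T + H)) := by
    intro t ht
    rw [Set.uIcc_of_le (by linarith)] at ht
    apply ContinuousAt.continuousWithinAt
    apply ContinuousAt.norm
    have hne : (σ : ℂ) + (t : ℂ) * Complex.I ≠ 1 := by
      intro h
      have h1 := congrArg Complex.im h
      simp at h1
      linarith [ht.1]
    have h1 : ContinuousAt riemannZeta ((σ : ℂ) + (t : ℂ) * Complex.I) :=
      (differentiableAt_riemannZeta hne).continuousAt
    have h2 : ContinuousAt (fun t : ℝ => (σ : ℂ) + (t : ℂ) * Complex.I) t := by fun_prop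
    exact ContinuousAt.comp (f := fun t : ℝ => (σ : ℂ) + (t : ℂ) * Complex.I) h1 h2
  have h1 : ∫ t in T..(T + H), H ≤
      ∫ t in T..(T + H), ‖riemannZeta ((σ : ℂ) + (t : ℂ) * Complex.I)‖ := by
    apply intervalIntegral.integral_mono_on (by linarith) (by simp) hcont.intervalIntegrable
    intro t ht
    exact hpt t ht
  rw [intervalIntegral.integral_const, smul_eq_mul] at h1
  have h2 : (T + H - T) * H = H ^ 2 := by ring
  rw [h2] at h1
  exact h1
-- END tn2

end Pool.Agent.Zat
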