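import Pool.Agent.Zat.Defs
import Pool.Agent.MT.Mert
import Pool.Agent.MP_67227b_nt.Pp.PpMert

/-!
# Products over small primes
-/

set_option autoImplicit false

open MeasureTheory

namespace Pool.Agent.Zat

-- BEGIN pup
private theorem pup_ge {y : ℕ} (hy : 2 ≤ y) {η : ℝ} (hη : 0 ≤ η) (hle : η * Real.log y ≤ 1) :
    Real.exp (-1) * Real.log y ≤
      ∏ p ∈ (Finset.range (y + 1)).filter Nat.Prime, (1 - (p : ℝ) ^ (-(1 + η)))⁻¹ := by
  have hf : ∀ {p : ℕ}, p.Prime → ‖Pool.Agent.MT.MERTAux.fs (1 + η) p‖ < 1 := by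
    intro p hp
    have h2 : (1 : ℝ) < p := by exact_mod_cast hp.one_lt
    rw [Pool.Agent.MT.MERTAux.fs_apply, Real.norm_of_nonneg (by positivity)]
    exact Real.rpow_lt_one_of_one_lt_of_neg h2 (by linarith)
  obtain ⟨-, h2⟩ :=
    EulerProduct.summable_and_hasSum_smoothNumbers_prod_primesBelow_geometric hf (y + 1)
  have h3 : HasSum (Set.indicator (Nat.smoothNumbers (y + 1))
      fun n => Pool.Agent.MT.MERTAux.fs (1 + η) n)
      (∏ p ∈ (y + 1).primesBelow, (1 - Pool.Agent.MT.MERTAux.fs (1 + η) p)⁻¹) :=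
    (hasSum_subtype_iff_indicator (f := fun n => Pool.Agent.MT.MERTAux.fs (1 + η) n)).1 h2
  have hnn : ∀ n : ℕ, 0 ≤ Pool.Agent.MT.MERTAux.fs (1 + η) n := by
    intro n
    rw [Pool.Agent.MT.MERTAux.fs_apply]
    positivity
  have h4 := sum_le_hasSum (Finset.Icc 1 y)
    (fun n _ => Set.indicator_nonneg (fun m _ => hnn m) n) h3
  have h5 : ∑ n ∈ Finset.Icc 1 y, Set.indicator (Nat.smoothNumbers (y + 1))
      (fun n => Pool.Agent.MT.MERTAux.fs (1 + η) n) n =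
      ∑ n ∈ Finset.Icc 1 y, (n : ℝ) ^ (-(1 + η)) := by
    refine Finset.sum_congr rfl fun n hn => ?_
    rw [Finset.mem_Icc] at hn
    rw [Set.indicator_of_mem]
    · rfl
    · exact Nat.mem_smoothNumbers_of_lt (by omega) (by omega)
  rw [h5] at h4
  refine le_trans ?_ h4
  have h6 : ∀ n ∈ Finset.Icc 1 y, Real.exp (-1) * (n : ℝ)⁻¹ ≤ (n : ℝ) ^ (-(1 + η)) := by
    intro n hn
    rw [Finset.mem_Icc] at hn
    have hn0 : (0 : ℝ) < n := by exact_mod_cast hn.1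
    have k1 : Real.log n ≤ Real.log y := Real.log_le_log hn0 (by exact_mod_cast hn.2)
    have k2 : η * Real.log n ≤ 1 := (mul_le_mul_of_nonneg_left k1 hη).trans hle
    rw [show -(1 + η) = -η + (-1) by ring, Real.rpow_add hn0, Real.rpow_neg_one]
    refine mul_le_mul_of_nonneg_right ?_ (inv_nonneg.2 hn0.le)
    rw [Real.rpow_def_of_pos hn0]
    exact Real.exp_le_exp.2 (by linarith)
  refine le_trans ?_ (Finset.sum_le_sum h6)
  rw [← Finset.mul_sum]
  refine mul_le_mul_of_nonneg_left ?_ (Real.exp_pos _).le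
  have h7 := log_add_one_le_harmonic y
  have h8 : ((harmonic y : ℚ) : ℝ) = ∑ n ∈ Finset.Icc 1 y, (n : ℝ)⁻¹ := by
    rw [harmonic_eq_sum_Icc]
    push_cast
    rfl
  rw [h8] at h7
  refine le_trans (Real.log_le_log (by positivity) ?_) h7
  push_cast
  linarith

/-- Idea: `1 - p^{-1-η} ≤ (1 - 1/p) exp (2 (1/p - p^{-1-η}))`, `1/p - p^{-1-η} ≤ η log p / p`,
`∑_{p ≤ y} log p / p ≤ log y + C` (`Pool.Agent.MP_67227b_nt.Pp.sum_prime_div`), and
`∏_{p ≤ y} (1 - 1/p)^{-1} ≥ ∑_{n ≤ y} 1/n ≥ log y`. -/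
theorem prod_upper : ∃ C : ℝ, 0 < C ∧ ∀ y : ℕ, 2 ≤ y → ∀ η : ℝ, 0 ≤ η → η * Real.log y ≤ 1 →
    ‖MM y ((1 + η : ℝ) : ℂ)‖ ≤ C / Real.log y := by
  refine ⟨Real.exp 1, Real.exp_pos 1, fun y hy η hη hle => ?_⟩
  have hyr : (2 : ℝ) ≤ y := by exact_mod_cast hy
  have hlog : 0 < Real.log y := Real.log_pos (by linarith)
  have e1 : MM y ((1 + η : ℝ) : ℂ) = ((∏ p ∈ (Finset.range (y + 1)).filter Nat.Prime,
      (1 - (p : ℝ) ^ (-(1 + η))) : ℝ) : ℂ) := by
    unfold MM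
    rw [Complex.ofReal_prod]
    refine Finset.prod_congr rfl fun p _ => ?_
    rw [Complex.ofReal_sub, Complex.ofReal_one, Complex.ofReal_cpow (Nat.cast_nonneg p)]
    push_cast
    rfl
  have e2 : ∀ p ∈ (Finset.range (y + 1)).filter Nat.Prime, 0 < 1 - (p : ℝ) ^ (-(1 + η)) := by
    intro p hp
    have h2 : (1 : ℝ) < p := by exact_mod_cast (Finset.mem_filter.1 hp).2.one_lt
    have h3 := Real.rpow_lt_one_of_one_lt_of_neg h2 (show -(1 + η) < 0 by linarith)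
    linarith
  have e3 := Finset.prod_pos e2
  rw [e1, Complex.norm_real, Real.norm_of_nonneg e3.le, le_div_iff₀ hlog]
  have e4 := pup_ge hy hη hle
  rw [Finset.prod_inv_distrib, le_inv_comm₀ (by positivity) e3, mul_inv, ← Real.exp_neg,
    neg_neg, ← div_eq_mul_inv, le_div_iff₀ hlog] at e4
  exact e4
-- END pup

-- BEGIN plo
private theorem plo_factor {y p : ℕ} (hp : p.Prime) (hpy : p ≤ y) {s : ℂ} {δ : ℝ} (hδ0 : 0 ≤ δ)
    (hδ1 : 1 - s.re ≤ δ) (hδL : δ * Real.log y ≤ 1) :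
    ‖1 - (p : ℂ) ^ (-s)‖ ≤ (1 - 1 / (p : ℝ))⁻¹ * Real.exp (2 * δ * (Real.log p / p)) := by
  have hp2 : (2 : ℝ) ≤ p := by exact_mod_cast hp.two_le
  have hp0 : (0 : ℝ) < p := by linarith
  have hlp : 0 ≤ Real.log p := Real.log_nonneg (by linarith)
  have hlpy : Real.log p ≤ Real.log y := Real.log_le_log hp0 (by exact_mod_cast hpy)
  have hx0 : 0 ≤ δ * Real.log p := mul_nonneg hδ0 hlp
  have hx1 : δ * Real.log p ≤ 1 := (mul_le_mul_of_nonneg_left hlpy hδ0).trans hδL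
  have hexp : Real.exp (δ * Real.log p) ≤ 1 + 2 * (δ * Real.log p) := by
    have h := Real.abs_exp_sub_one_le (x := δ * Real.log p) (by rw [abs_of_nonneg hx0]; exact hx1)
    rw [abs_of_nonneg hx0] at h
    linarith [le_abs_self (Real.exp (δ * Real.log p) - 1)]
  have hz : ‖(p : ℂ) ^ (-s)‖ ≤ 1 / p * (1 + 2 * (δ * Real.log p)) := by
    rw [Complex.norm_natCast_cpow_of_pos hp.pos, Real.rpow_def_of_pos hp0]
    have h1 : Real.log p * (-s).re ≤ -Real.log p + δ * Real.log p := by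
      rw [Complex.neg_re]
      nlinarith [mul_le_mul_of_nonneg_right hδ1 hlp]
    have h2 : Real.exp (-Real.log p) = 1 / p := by
      rw [Real.exp_neg, Real.exp_log hp0, one_div]
    calc Real.exp (Real.log p * (-s).re) ≤ Real.exp (-Real.log p + δ * Real.log p) :=
          Real.exp_le_exp.2 h1
      _ = 1 / p * Real.exp (δ * Real.log p) := by rw [Real.exp_add, h2]
      _ ≤ 1 / p * (1 + 2 * (δ * Real.log p)) :=
          mul_le_mul_of_nonneg_left hexp (by positivity)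
  have hq0 : 0 ≤ 1 / (p : ℝ) := by positivity
  have hq1 : 1 / (p : ℝ) ≤ 1 / 2 := one_div_le_one_div_of_le (by norm_num) hp2
  have hA : 1 + 1 / (p : ℝ) ≤ (1 - 1 / (p : ℝ))⁻¹ := by
    rw [← one_div (1 - 1 / (p : ℝ)), le_div_iff₀ (by linarith)]
    nlinarith
  have hB : 1 + 2 * δ * (Real.log p / p) ≤ Real.exp (2 * δ * (Real.log p / p)) := by
    linarith [Real.add_one_le_exp (2 * δ * (Real.log p / p))]
  have hb0 : 0 ≤ 2 * δ * (Real.log p / p) := by positivity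
  calc ‖1 - (p : ℂ) ^ (-s)‖ ≤ ‖(1 : ℂ)‖ + ‖(p : ℂ) ^ (-s)‖ := norm_sub_le _ _
    _ ≤ 1 + 1 / p * (1 + 2 * (δ * Real.log p)) := by
        rw [norm_one]
        linarith
    _ = 1 + 1 / p + 2 * δ * (Real.log p / p) := by ring
    _ ≤ (1 + 1 / p) * (1 + 2 * δ * (Real.log p / p)) := by nlinarith
    _ ≤ (1 - 1 / (p : ℝ))⁻¹ * Real.exp (2 * δ * (Real.log p / p)) :=
        mul_le_mul hA hB (by linarith) (by linarith)

/-- Idea: `‖1 - p^{-s}‖ ≤ 1 + p^{-σ}`, `p^{-σ} ≤ (1 + 2 (1-σ) log p) / p` if `0 ≤ (1-σ) log p ≤ 1`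
(for `σ > 1` replace `σ` by `1`), `Pool.Agent.MT.mertens_prod` and
`Pool.Agent.MP_67227b_nt.Pp.sum_prime_div`. -/
theorem prod_lower : ∃ C : ℝ, 0 < C ∧ ∀ y : ℕ, 2 ≤ y → ∀ s : ℂ, (1 - s.re) * Real.log y ≤ 1 →
    ‖MM y s‖ ≤ C * Real.log y := by
  obtain ⟨C1, hC1, h1⟩ := Pool.Agent.MT.mertens_prod
  obtain ⟨C2, hC2, h2⟩ := Pool.Agent.MP_67227b_nt.Pp.sum_prime_div
  have hl2 : 0 < Real.log 2 := Real.log_pos (by norm_num)
  refine ⟨2 * C1 * Real.exp (2 + 2 * (C2 / Real.log 2)), by positivity, fun y hy s hs => ?_⟩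
  have hyr : (2 : ℝ) ≤ y := by exact_mod_cast hy
  have hy0 : (0 : ℝ) < y := by linarith
  have hL2 : Real.log 2 ≤ Real.log y := Real.log_le_log (by norm_num) hyr
  have hL0 : 0 < Real.log y := by linarith
  have hδ0 : 0 ≤ max (1 - s.re) 0 := le_max_right _ _
  have hδ1 : 1 - s.re ≤ max (1 - s.re) 0 := le_max_left _ _
  have hδL : max (1 - s.re) 0 * Real.log y ≤ 1 := by
    rcases le_total (1 - s.re) 0 with h | h
    · rw [max_eq_right h, zero_mul]
      exact zero_le_one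
    · rw [max_eq_left h]
      exact hs
  generalize max (1 - s.re) 0 = δ at hδ0 hδ1 hδL
  have hδ2 : δ ≤ 1 / Real.log 2 := by
    rw [le_div_iff₀ hl2]
    exact (mul_le_mul_of_nonneg_left hL2 hδ0).trans hδL
  -- the sum over the primes
  have hS : ∑ p ∈ (Finset.range (y + 1)).filter Nat.Prime, Real.log p / p ≤ Real.log y + C2 := by
    have h3 := h2 1 y le_rfl (by linarith)
    rw [Nat.floor_one, Nat.floor_natCast, Real.log_one, sub_zero] at h3
    have h4 : (Finset.range (y + 1)).filter Nat.Prime = (Finset.Ioc 1 y).filter Nat.Prime := by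
      ext p
      simp only [Finset.mem_filter, Finset.mem_range, Finset.mem_Ioc]
      constructor
      · rintro ⟨h5, h6⟩
        exact ⟨⟨h6.one_lt, by omega⟩, h6⟩
      · rintro ⟨⟨-, h5⟩, h6⟩
        exact ⟨by omega, h6⟩
    rw [h4]
    linarith [(abs_le.1 h3).2]
  have hP : ∏ p ∈ (Finset.range (y + 1)).filter Nat.Prime, (1 - 1 / (p : ℝ))⁻¹ ≤
      C1 * (2 * Real.log y) := by
    refine (h1 (y + 1) (by omega)).trans (mul_le_mul_of_nonneg_left ?_ hC1.le)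
    have h5 : ((y + 1 : ℕ) : ℝ) ≤ (y : ℝ) ^ 2 := by
      push_cast
      nlinarith
    calc Real.log ((y + 1 : ℕ) : ℝ) ≤ Real.log ((y : ℝ) ^ 2) :=
          Real.log_le_log (by positivity) h5
      _ = 2 * Real.log y := by rw [Real.log_pow]; norm_num
  have hP0 : 0 ≤ ∏ p ∈ (Finset.range (y + 1)).filter Nat.Prime, (1 - 1 / (p : ℝ))⁻¹ := by
    refine Finset.prod_nonneg fun p hp => ?_
    have hp2 : (2 : ℝ) ≤ p := by exact_mod_cast (Finset.mem_filter.1 hp).2.two_le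
    have h6 : 1 / (p : ℝ) ≤ 1 / 2 := one_div_le_one_div_of_le (by norm_num) hp2
    exact inv_nonneg.2 (by linarith)
  unfold MM
  rw [norm_prod]
  calc ∏ p ∈ (Finset.range (y + 1)).filter Nat.Prime, ‖1 - (p : ℂ) ^ (-s)‖ ≤
        ∏ p ∈ (Finset.range (y + 1)).filter Nat.Prime,
          ((1 - 1 / (p : ℝ))⁻¹ * Real.exp (2 * δ * (Real.log p / p))) := by
        refine Finset.prod_le_prod (fun p _ => norm_nonneg _) fun p hp => ?_
        rw [Finset.mem_filter, Finset.mem_range] at hp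
        exact plo_factor hp.2 (by omega) hδ0 hδ1 hδL
    _ = (∏ p ∈ (Finset.range (y + 1)).filter Nat.Prime, (1 - 1 / (p : ℝ))⁻¹) *
          Real.exp (2 * δ * ∑ p ∈ (Finset.range (y + 1)).filter Nat.Prime, Real.log p / p) := by
        rw [Finset.prod_mul_distrib, Finset.mul_sum, Real.exp_sum]
    _ ≤ C1 * (2 * Real.log y) * Real.exp (2 + 2 * (C2 / Real.log 2)) := by
        refine mul_le_mul hP (Real.exp_le_exp.2 ?_) (Real.exp_nonneg _) (by positivity)
        have h7 : 2 * δ * ∑ p ∈ (Finset.range (y + 1)).filter Nat.Prime, Real.log p / p ≤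
            2 * δ * (Real.log y + C2) := mul_le_mul_of_nonneg_left hS (by linarith)
        have h8 : δ * C2 ≤ 1 / Real.log 2 * C2 := mul_le_mul_of_nonneg_right hδ2 hC2.le
        have h9 : 1 / Real.log 2 * C2 = C2 / Real.log 2 := by ring
        nlinarith
    _ = 2 * C1 * Real.exp (2 + 2 * (C2 / Real.log 2)) * Real.log y := by ring
-- END plo

end Pool.Agent.Zat
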