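import Pool.Agent.Zat.Core
import Pool.Agent.Zat.Low

/-!
# Intervals of moderate length, the refined form
-/

set_option autoImplicit false

open MeasureTheory

namespace Pool.Agent.Zat

-- BEGIN md2
private theorem md2_zcont (σ T H : ℝ) (hT : 0 < T) (hH : 0 ≤ H) :
    ContinuousOn (fun t : ℝ => riemannZeta ((σ : ℂ) + (t : ℂ) * Complex.I)) (Set.uIcc T (T + H)) := by
  intro t ht
  rw [Set.uIcc_of_le (by linarith)] at ht
  have h1 : ((σ : ℂ) + (t : ℂ) * Complex.I) ≠ 1 := by
    intro h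
    have h2 := congrArg Complex.im h
    simp at h2
    linarith [ht.1]
  exact (ContinuousAt.comp (f := fun t : ℝ => (σ : ℂ) + (t : ℂ) * Complex.I)
      (differentiableAt_riemannZeta h1).continuousAt (by fun_prop)).continuousWithinAt

private theorem md2_mcont (y : ℕ) : Continuous (MM y) := by
  unfold MM
  refine continuous_finsetProd _ fun p hp => ?_
  have hp0 : (p : ℂ) ≠ 0 := by
    exact_mod_cast (Finset.mem_filter.1 hp).2.ne_zero
  exact continuous_const.sub (continuous_neg.const_cpow (Or.inl hp0))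

/-- The core step with the bound `B` as a parameter: `h = H/4`, `y = ⌈exp (4A/H)⌉₊`. -/
private theorem md2_step {A C : ℝ} (hA : 0 < A) (hC : 0 < C)
    (hcore : ∀ y : ℕ, 2 ≤ y → ∀ h : ℝ, 0 < h → A ≤ h * Real.log y →
      ∀ a : ℝ, 0 < a → 1 ≤ a * h → ∀ σ τ : ℝ, 1 < σ + 1 / a → 2 * h < τ → ∀ B : ℝ,
      (∀ s : ℂ, σ ≤ s.re → s.re ≤ σ + 1 / a → |s.im - τ| ≤ 2 * h → ‖ff y s‖ ≤ B) →
        B * Real.exp (-(Real.exp (a * h) / 4)) ≤ 1 / 100 →
          h / 20 ≤ ∫ w in (-(2 * h))..(2 * h), ‖ff y ((σ : ℂ) + ((τ + w : ℝ) : ℂ) * Complex.I)‖)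
    (hplo : ∀ y : ℕ, 2 ≤ y → ∀ s : ℂ, (1 - s.re) * Real.log y ≤ 1 → ‖MM y s‖ ≤ C * Real.log y)
    {T H g σ Z : ℝ} (hT : 1 ≤ T) (hH : 0 < H) (hH1 : H ≤ 1) (hg : 1 ≤ g)
    (hσ0 : (1 - σ) * ((4 * A + 1) / H) ≤ 1) (hσ1 : 1 - σ < H / (4 * g)) (hZ : 0 ≤ Z)
    (hz : ∀ s : ℂ, σ ≤ s.re → s.re ≤ σ + H / (4 * g) → T ≤ s.im → s.im ≤ T + 1 →
      ‖riemannZeta s‖ ≤ Z)
    (hB : Z * (C * ((4 * A + 1) / H)) * Real.exp (-(Real.exp g / 4)) ≤ 1 / 100) :
    1 / (80 * (C * (4 * A + 1))) * H ^ 2 ≤ ZUni.IZ σ T H := by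
  set P : ℝ := 4 * A + 1 with hP
  have hP0 : 0 < P := by linarith
  have hT0 : 0 < T := by linarith
  have hg0 : 0 < g := by linarith
  set h : ℝ := H / 4 with hh
  have hh0 : 0 < h := by positivity
  set a : ℝ := g / h with ha
  have ha0 : 0 < a := by positivity
  have hah : a * h = g := by
    rw [ha]
    field_simp
  have hainv : 1 / a = H / (4 * g) := by
    rw [ha, hh]
    field_simp
  have hlt : 1 < σ + 1 / a := by
    rw [hainv]
    linarith
  -- the number y
  set x : ℝ := 4 * A / H with hx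
  have hx0 : 0 < x := by positivity
  obtain ⟨y, hy⟩ : ∃ y : ℕ, y = ⌈Real.exp x⌉₊ := ⟨_, rfl⟩
  have hyx : Real.exp x ≤ y := by rw [hy]; exact Nat.le_ceil _
  have hex : 1 < Real.exp x := Real.one_lt_exp_iff.2 hx0
  have hy1 : 2 ≤ y := by
    have : (1 : ℝ) < y := lt_of_lt_of_le hex hyx
    exact_mod_cast this
  have hy0 : (0 : ℝ) < y := by linarith
  have hylog : x ≤ Real.log y := by
    rw [Real.le_log_iff_exp_le hy0]
    exact hyx
  have hylog2 : Real.log y ≤ P / H := by
    have h1 : (y : ℝ) ≤ Real.exp x + 1 := by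
      rw [hy]
      exact (Nat.ceil_lt_add_one (Real.exp_pos _).le).le
    have h2 : (y : ℝ) ≤ Real.exp (x + 1) := by
      rw [Real.exp_add]
      have h3 : (2 : ℝ) ≤ Real.exp 1 := by
        have := Real.exp_one_gt_d9
        linarith
      nlinarith
    have h3 : Real.log y ≤ x + 1 := by
      rw [Real.log_le_iff_le_exp hy0]
      exact h2
    have h4 : x + 1 ≤ P / H := by
      rw [hx, hP, le_div_iff₀ hH]
      have : 4 * A / H * H = 4 * A := by field_simp
      nlinarith
    linarith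
  have hAh : A ≤ h * Real.log y := by
    have h1 : h * x = A := by
      rw [hh, hx]
      field_simp
    calc A = h * x := h1.symm
      _ ≤ h * Real.log y := mul_le_mul_of_nonneg_left hylog hh0.le
  have hylog0 : 0 < Real.log y := by linarith
  have hsy : (1 - σ) * Real.log y ≤ 1 := by
    rcases le_or_gt (1 - σ) 0 with hs0 | hs0
    · have := mul_nonpos_of_nonpos_of_nonneg hs0 hylog0.le
      linarith
    · exact (mul_le_mul_of_nonneg_left hylog2 hs0.le).trans hσ0
  have hMM : ∀ s : ℂ, σ ≤ s.re → ‖MM y s‖ ≤ C * (P / H) := by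
    intro s hs
    have h1 : (1 - s.re) * Real.log y ≤ 1 := by
      refine le_trans ?_ hsy
      exact mul_le_mul_of_nonneg_right (by linarith) hylog0.le
    exact (hplo y hy1 s h1).trans (mul_le_mul_of_nonneg_left hylog2 hC.le)
  -- the bound in the rectangle
  have hBs : ∀ s : ℂ, σ ≤ s.re → s.re ≤ σ + 1 / a → |s.im - (T + 2 * h)| ≤ 2 * h →
      ‖ff y s‖ ≤ Z * (C * (P / H)) := by
    intro s hs1 hs2 hs3
    have h4 := abs_le.1 hs3
    have h5 : 4 * h = H := by rw [hh]; ring
    rw [hainv] at hs2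
    have h8 : ‖riemannZeta s‖ ≤ Z := hz s hs1 hs2 (by linarith) (by linarith)
    unfold ff
    rw [norm_mul]
    exact mul_le_mul h8 (hMM s hs1) (norm_nonneg _) hZ
  have hmain := hcore y hy1 h hh0 hAh a ha0 (by rw [hah]; linarith) σ (T + 2 * h) hlt (by linarith)
    (Z * (C * (P / H))) hBs (by rw [hah]; exact hB)
  -- change of variables
  have hcv : ∫ w in (-(2 * h))..(2 * h),
      ‖ff y ((σ : ℂ) + (((T + 2 * h) + w : ℝ) : ℂ) * Complex.I)‖ =
      ∫ t in T..(T + H), ‖ff y ((σ : ℂ) + (t : ℂ) * Complex.I)‖ := by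
    have h1 := intervalIntegral.integral_comp_add_left
      (a := -(2 * h)) (b := 2 * h) (fun t : ℝ => ‖ff y ((σ : ℂ) + (t : ℂ) * Complex.I)‖) (T + 2 * h)
    rw [h1]
    have e1 : T + 2 * h + -(2 * h) = T := by ring
    have e2 : T + 2 * h + 2 * h = T + H := by rw [hh]; ring
    rw [e1, e2]
  rw [hcv] at hmain
  have hzc := md2_zcont σ T H hT0 hH.le
  have hmm : Continuous fun t : ℝ => MM y ((σ : ℂ) + (t : ℂ) * Complex.I) :=
    (md2_mcont y).comp (by fun_prop)
  have hle : ∫ t in T..(T + H), ‖ff y ((σ : ℂ) + (t : ℂ) * Complex.I)‖ ≤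
      ∫ t in T..(T + H), (C * (P / H)) * ‖riemannZeta ((σ : ℂ) + (t : ℂ) * Complex.I)‖ := by
    apply intervalIntegral.integral_mono_on (by linarith)
    · apply ContinuousOn.intervalIntegrable
      unfold ff
      exact (hzc.mul hmm.continuousOn).norm
    · apply ContinuousOn.intervalIntegrable
      exact continuousOn_const.mul hzc.norm
    · intro t _
      unfold ff
      rw [norm_mul, mul_comm]
      apply mul_le_mul_of_nonneg_right _ (norm_nonneg _)
      apply hMM
      simp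
  rw [intervalIntegral.integral_const_mul] at hle
  have hfin := hmain.trans hle
  unfold ZUni.IZ
  set J : ℝ := ∫ t in T..(T + H), ‖riemannZeta ((σ : ℂ) + (t : ℂ) * Complex.I)‖ with hJ
  have e3 : C * (P / H) * J = (C * P * J) / H := by ring
  rw [e3, le_div_iff₀ hH, hh] at hfin
  rw [div_mul_eq_mul_div, one_mul, div_le_iff₀ (by positivity)]
  nlinarith

/-- `md2_step` with `g = log (K (H log T + log log T))`, `Z = 20 exp (2 H log T) 2 log T`. -/
theorem mid_log (d : ℝ) (hd : 0 < d) : ∃ c c₀ T₀ : ℝ, 0 < c ∧ 0 < c₀ ∧ ∀ T : ℝ, T₀ ≤ T →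
    ∀ H : ℝ, 0 < H → d / Real.log T ^ 9 ≤ H → H ≤ 1 → ∀ σ : ℝ,
      1 - c₀ * H / Real.log (H * Real.log T + Real.log (Real.log T)) ≤ σ → σ ≤ 1 →
        c * H ^ 2 ≤ ZUni.IZ σ T H := by
  obtain ⟨A, hA, hcore⟩ := core
  obtain ⟨C, hC, hplo⟩ := prod_lower
  have hP0 : 0 < 4 * A + 1 := by linarith
  -- the final constant in `B`
  obtain ⟨Q, hQ⟩ : ∃ Q : ℝ, Q = 40 * C * (4 * A + 1) / d := ⟨_, rfl⟩
  have hQ0 : 0 < Q := by rw [hQ]; positivity
  refine ⟨1 / (80 * (C * (4 * A + 1))), min (1 / 16) (1 / (4 * A + 1)),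
    max (Real.exp (Real.exp 4)) (Real.exp (100 * Q)), by positivity, by positivity, ?_⟩
  intro T hT H hH hdH hH1 σ hσ hσ1
  have hT2 : Real.exp (Real.exp 4) ≤ T := (le_max_left _ _).trans hT
  have hT3 : Real.exp (100 * Q) ≤ T := (le_max_right _ _).trans hT
  have hT0 : 0 < T := lt_of_lt_of_le (Real.exp_pos _) hT2
  have hT1 : 1 ≤ T := by
    have : 1 ≤ Real.exp (100 * Q) := Real.one_le_exp (by positivity)
    linarith
  obtain ⟨l, hl⟩ : ∃ l : ℝ, l = Real.log T := ⟨_, rfl⟩
  have hl1 : Real.exp 4 ≤ l := by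
    rw [hl, Real.le_log_iff_exp_le hT0]
    exact hT2
  have hl2 : 100 * Q ≤ l := by
    rw [hl, Real.le_log_iff_exp_le hT0]
    exact hT3
  have hl0 : 0 < l := lt_of_lt_of_le (Real.exp_pos _) hl1
  have hlT : l ≤ T := by
    rw [hl]
    exact (Real.log_le_sub_one_of_pos hT0).trans (by linarith)
  obtain ⟨lam, hlam⟩ : ∃ lam : ℝ, lam = Real.log l := ⟨_, rfl⟩
  have hlam4 : 4 ≤ lam := by
    rw [hlam, Real.le_log_iff_exp_le hl0]
    exact hl1
  have hexlam : Real.exp lam = l := by rw [hlam, Real.exp_log hl0]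
  rw [← hl, ← hlam] at hσ
  rw [← hl] at hdH
  obtain ⟨W, hW⟩ : ∃ W : ℝ, W = H * l + lam := ⟨_, rfl⟩
  have hWl : lam ≤ W := by
    rw [hW]
    have := mul_pos hH hl0
    linarith
  have hWH : H * l ≤ W := by
    rw [hW]
    linarith
  have hW4 : 4 ≤ W := by linarith
  have hW0 : 0 < W := by linarith
  rw [← hW] at hσ
  have hexp1 : Real.exp 1 ≤ 4 := by
    have := Real.exp_one_lt_d9
    linarith
  have hlogW1 : 1 ≤ Real.log W := by
    rw [Real.le_log_iff_exp_le hW0]
    linarith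
  obtain ⟨g, hg⟩ : ∃ g : ℝ, g = Real.log (64 * W) := ⟨_, rfl⟩
  have h64 : Real.log 64 = 3 * Real.log 4 := by
    have : (64 : ℝ) = 4 ^ 3 := by norm_num
    rw [this, Real.log_pow]
    norm_num
  have h4W : Real.log 4 ≤ Real.log W := Real.log_le_log (by norm_num) hW4
  have h40 : 0 ≤ Real.log 4 := Real.log_nonneg (by norm_num)
  have hg1 : g = 3 * Real.log 4 + Real.log W := by
    rw [hg, Real.log_mul (by norm_num) hW0.ne', h64]
  have hg4 : g ≤ 4 * Real.log W := by linarith
  have hgge : 1 ≤ g := by linarith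
  have hexg : Real.exp g = 64 * W := by rw [hg, Real.exp_log (by positivity)]
  have hc1 : min (1 / 16) (1 / (4 * A + 1)) ≤ 1 / 16 := min_le_left _ _
  have hc2 : min (1 / 16) (1 / (4 * A + 1)) ≤ 1 / (4 * A + 1) := min_le_right _ _
  have hc0 : 0 < min (1 / 16) (1 / (4 * A + 1)) := by positivity
  obtain ⟨c0, hc0def⟩ : ∃ c0 : ℝ, c0 = min (1 / 16) (1 / (4 * A + 1)) := ⟨_, rfl⟩
  rw [← hc0def] at hσ hc1 hc2 hc0
  have hlW0 : 0 < Real.log W := by linarith
  have h1s : 1 - σ ≤ c0 * H / Real.log W := by linarith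
  have h1sH : 1 - σ ≤ H / 16 := by
    refine h1s.trans ?_
    rw [div_le_div_iff₀ hlW0 (by norm_num)]
    nlinarith [mul_pos hH hlW0]
  have hstrict : g < 4 * Real.log W := by
    have h1 : (4 : ℝ) < W := by
      rw [hW]
      have := mul_pos hH hl0
      linarith
    have h2 : Real.log 4 < Real.log W := Real.log_lt_log (by norm_num) h1
    linarith
  have ha : (1 - σ) * ((4 * A + 1) / H) ≤ 1 := by
    have h1 : 1 - σ ≤ H / (4 * A + 1) := by
      refine h1s.trans ?_
      rw [div_le_div_iff₀ hlW0 hP0]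
      have h2 : c0 * (4 * A + 1) ≤ 1 := by
        calc c0 * (4 * A + 1) ≤ (1 / (4 * A + 1)) * (4 * A + 1) :=
              mul_le_mul_of_nonneg_right hc2 hP0.le
          _ = 1 := by field_simp
      nlinarith
    calc (1 - σ) * ((4 * A + 1) / H) ≤ H / (4 * A + 1) * ((4 * A + 1) / H) :=
          mul_le_mul_of_nonneg_right h1 (by positivity)
      _ = 1 := by field_simp
  have hb : 1 - σ < H / (4 * g) := by
    have h1 : c0 * H / Real.log W ≤ H / (16 * Real.log W) := by
      rw [div_le_div_iff₀ hlW0 (by positivity)]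
      nlinarith [mul_pos hH hlW0]
    have h2 : H / (16 * Real.log W) < H / (4 * g) := by
      apply div_lt_div_of_pos_left hH (by positivity)
      linarith
    linarith
  have hTsq : T + 3 ≤ T ^ 2 := by
    have : 4 ≤ T := by
      have h1 : Real.exp 4 ≤ T := by linarith
      have h2 := Real.add_one_le_exp (4 : ℝ)
      linarith
    nlinarith
  have hg4' : H / (4 * g) ≤ 1 / 4 := by
    rw [div_le_div_iff₀ (by linarith) (by norm_num)]
    linarith
  have hz : ∀ s : ℂ, σ ≤ s.re → s.re ≤ σ + H / (4 * g) → T ≤ s.im → s.im ≤ T + 1 →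
      ‖riemannZeta s‖ ≤ 40 * Real.exp W * l := by
    intro s hs1 hs2 hs3 hs4
    have habs : |s.im| = s.im := abs_of_nonneg (by linarith)
    have h4T : 4 ≤ T := by
      have h1 : Real.exp 4 ≤ T := by linarith
      have h2 := Real.add_one_le_exp (4 : ℝ)
      linarith
    have h1 := zeta_log (H / 16) (by positivity) (by linarith) s (by linarith) (by linarith)
      (by rw [habs]; linarith)
    rw [habs] at h1
    have h2 : s.im + 2 ≤ T ^ 2 := by linarith
    have h3 : (s.im + 2) ^ (H / 16) ≤ Real.exp W := by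
      calc (s.im + 2) ^ (H / 16) ≤ (T ^ 2) ^ (H / 16) :=
            Real.rpow_le_rpow (by linarith) h2 (by positivity)
        _ = Real.exp (Real.log (T ^ 2) * (H / 16)) := Real.rpow_def_of_pos (by positivity) _
        _ ≤ Real.exp W := by
            apply Real.exp_le_exp.2
            rw [Real.log_pow, ← hl]
            push_cast
            have := mul_pos hH hl0
            nlinarith
    have h4 : Real.log (s.im + 2) ≤ 2 * l := by
      calc Real.log (s.im + 2) ≤ Real.log (T ^ 2) := Real.log_le_log (by linarith) h2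
        _ = 2 * l := by
            rw [Real.log_pow, ← hl]
            norm_num
    have h5 : 0 ≤ Real.log (s.im + 2) := Real.log_nonneg (by linarith)
    calc ‖riemannZeta s‖ ≤ 20 * (s.im + 2) ^ (H / 16) * Real.log (s.im + 2) := h1
      _ ≤ 20 * Real.exp W * (2 * l) := by
          apply mul_le_mul _ h4 h5 (by positivity)
          exact mul_le_mul_of_nonneg_left h3 (by norm_num)
      _ = 40 * Real.exp W * l := by ring
  have hBe : 40 * Real.exp W * l * (C * ((4 * A + 1) / H)) * Real.exp (-(Real.exp g / 4)) ≤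
      1 / 100 := by
    have h1 : 1 / H ≤ l ^ 9 / d := by
      rw [div_le_div_iff₀ hH hd]
      rw [div_le_iff₀ (by positivity)] at hdH
      linarith
    have h2 : 40 * Real.exp W * l * (C * ((4 * A + 1) / H)) * Real.exp (-(Real.exp g / 4)) =
        (40 * C * (4 * A + 1)) * (1 / H) * l * (Real.exp W * Real.exp (-(Real.exp g / 4))) := by
      ring
    rw [h2]
    have h3 : Real.exp W * Real.exp (-(Real.exp g / 4)) = Real.exp (-(15 * W)) := by
      rw [← Real.exp_add, hexg]
      congr 1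
      ring
    rw [h3]
    have h4 : (40 * C * (4 * A + 1)) * (1 / H) * l * Real.exp (-(15 * W)) ≤
        (40 * C * (4 * A + 1)) * (l ^ 9 / d) * l * Real.exp (-(15 * W)) := by
      apply mul_le_mul_of_nonneg_right _ (Real.exp_pos _).le
      apply mul_le_mul_of_nonneg_right _ hl0.le
      exact mul_le_mul_of_nonneg_left h1 (by positivity)
    refine h4.trans ?_
    have h5 : (40 * C * (4 * A + 1)) * (l ^ 9 / d) * l * Real.exp (-(15 * W)) =
        Q * (l ^ 10 * Real.exp (-(15 * W))) := by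
      rw [hQ]
      ring
    rw [h5]
    have h6 : l ^ 10 = Real.exp (10 * lam) := by
      have e : (10 : ℝ) * lam = ((10 : ℕ) : ℝ) * lam := by norm_num
      rw [e, Real.exp_nat_mul, hexlam]
    have h7 : l ^ 10 * Real.exp (-(15 * W)) ≤ Real.exp (-lam) := by
      rw [h6, ← Real.exp_add]
      apply Real.exp_le_exp.2
      linarith
    have h8 : Real.exp (-lam) = 1 / l := by
      rw [Real.exp_neg, hexlam, one_div]
    calc Q * (l ^ 10 * Real.exp (-(15 * W))) ≤ Q * (1 / l) := by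
          rw [← h8]
          exact mul_le_mul_of_nonneg_left h7 hQ0.le
      _ = Q / l := by ring
      _ ≤ 1 / 100 := by
          rw [div_le_div_iff₀ hl0 (by norm_num)]
          linarith
  exact md2_step hA hC hcore hplo hT1 hH hH1 hgge ha hb (by positivity) hz hBe
-- END md2

end Pool.Agent.Zat
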