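import Pool.Agent.Zat.Ser
import Pool.Agent.Zat.Mert

/-!
# Sums over rough numbers
-/

set_option autoImplicit false

open MeasureTheory

namespace Pool.Agent.Zat

-- BEGIN ret
private theorem ret_zeta (σ : ℝ) (hσ : 1 < σ) : ‖riemannZeta (σ : ℂ)‖ ≤ 1 + 1 / (σ - 1) := by
  have h4 : Summable (fun n : ℕ => 1 / ((n : ℝ) + 1) ^ σ) := by
    have h := (Real.summable_one_div_nat_rpow.mpr hσ)
    have h2 := (summable_nat_add_iff 1).mpr h
    simpa using h2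
  have h5 : ∑' n : ℕ, 1 / ((n : ℝ) + 1) ^ σ ≤ 1 + 1 / (σ - 1) := by
    have h := ZetaAsymptotics.zeta_limit_aux1 hσ
    have h2 : 0 ≤ ZetaAsymptotics.termTSum σ :=
      tsum_nonneg fun n => ZetaAsymptotics.term_nonneg _ _
    have h3 : 0 ≤ σ * ZetaAsymptotics.termTSum σ := mul_nonneg (by linarith) h2
    linarith
  rw [zeta_eq_tsum_one_div_nat_add_one_cpow (by simpa using hσ)]
  have h6 : ∀ n : ℕ, ‖1 / ((n : ℂ) + 1) ^ (σ : ℂ)‖ = 1 / ((n : ℝ) + 1) ^ σ := by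
    intro n
    have h7 : ((n : ℂ) + 1) = (((n : ℝ) + 1 : ℝ) : ℂ) := by push_cast; rfl
    rw [h7, norm_div, norm_one, Complex.norm_cpow_eq_rpow_re_of_pos (by positivity)]
    simp
  refine (norm_tsum_le_tsum_norm ?_).trans ?_
  · simpa only [h6] using h4
  · simpa only [h6] using h5

/-- from `rough_fin_le`, `prod_upper` and `‖ζ(1+η)‖ ≤ 1 + 1/η ≤ 3/η` (`η ≤ 1 / log 2`) -/
theorem rough_eta : ∃ C : ℝ, 0 < C ∧ ∀ y : ℕ, 2 ≤ y → ∀ η : ℝ, 0 < η → η * Real.log y ≤ 1 →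
    ∀ S : Finset ℕ, (∀ n ∈ S, Rough y n) →
      ∑ n ∈ S, (n : ℝ) ^ (-(1 + η)) ≤ C / (η * Real.log y) := by
  obtain ⟨C, hC, hP⟩ := prod_upper
  refine ⟨3 * C, by positivity, fun y hy η hη hηy S hS => ?_⟩
  have hy2 : (2 : ℝ) ≤ y := by exact_mod_cast hy
  have hl2 : (0.6931471803 : ℝ) < Real.log 2 := Real.log_two_gt_d9
  have hly : Real.log 2 ≤ Real.log y := Real.log_le_log (by norm_num) hy2
  have hlp : 0 < Real.log y := by linarith
  have hη2 : η ≤ 2 := by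
    have h1 : η * Real.log 2 ≤ 1 := (mul_le_mul_of_nonneg_left hly hη.le).trans hηy
    nlinarith
  have h1 := rough_fin_le y (1 + η) (by linarith) S hS
  have h2 := ret_zeta (1 + η) (by linarith)
  have h3 : ‖riemannZeta ((1 + η : ℝ) : ℂ)‖ ≤ 3 / η := by
    refine h2.trans ?_
    have h4 : 1 + η - 1 = η := by ring
    rw [h4, le_div_iff₀ hη, add_mul, one_mul, one_div, inv_mul_cancel₀ hη.ne']
    linarith
  refine h1.trans ?_
  rw [ff, norm_mul]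
  calc ‖riemannZeta ((1 + η : ℝ) : ℂ)‖ * ‖MM y ((1 + η : ℝ) : ℂ)‖
      ≤ (3 / η) * (C / Real.log y) :=
        mul_le_mul h3 (hP y hy η hη.le hηy) (norm_nonneg _) (by positivity)
    _ = 3 * C / (η * Real.log y) := by
        rw [div_mul_div_comm]
-- END ret

-- BEGIN rsu
/-- Idea: `L = log y`; if `2^j L ≤ log n < 2^(j+1) L` (some `j`, as `n > y` by `rough_gt`) then
`1 / (n (log n)²) ≤ e · 4^{-j} L^{-2} · n^{-(1+η_j)}` with `η_j = 1 / (2^(j+1) L)`; sum over `j < J` of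
`rough_eta` gives `∑ e 4^{-j} L^{-2} C 2^{j+1} ≤ 4 e C L^{-2}`. -/
theorem rough_sum : ∃ C : ℝ, 0 < C ∧ ∀ y : ℕ, 2 ≤ y → ∀ S : Finset ℕ,
    (∀ n ∈ S, Rough y n ∧ n ≠ 1) →
      ∑ n ∈ S, 1 / ((n : ℝ) * Real.log n ^ 2) ≤ C / Real.log y ^ 2 := by
  obtain ⟨C, hC, hE⟩ := rough_eta
  refine ⟨4 * Real.exp 1 * C, by positivity, ?_⟩
  intro y hy S hS
  have hy2 : (2 : ℝ) ≤ (y : ℝ) := by exact_mod_cast hy
  have hgt : ∀ n ∈ S, y < n := fun n hn => rough_gt (hS n hn).1 (hS n hn).2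
  obtain ⟨L, hL⟩ : ∃ L : ℝ, L = Real.log y := ⟨_, rfl⟩
  have hL0 : 0 < L := by rw [hL]; exact Real.log_pos (by linarith)
  rw [← hL]
  have hj : ∀ n ∈ S, ∃ j : ℕ, (2 : ℝ) ^ j * L ≤ Real.log n ∧ Real.log n < (2 : ℝ) ^ (j + 1) * L := by
    intro n hn
    have h1 : L ≤ Real.log n := by
      rw [hL]
      exact Real.log_le_log (by linarith) (by exact_mod_cast (hgt n hn).le)
    obtain ⟨j, h2, h3⟩ := exists_nat_pow_near ((one_le_div hL0).2 h1) (one_lt_two (α := ℝ))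
    exact ⟨j, (le_div_iff₀ hL0).1 h2, (div_lt_iff₀ hL0).1 h3⟩
  choose! jf hjf using hj
  have hpt : ∀ n ∈ S, 1 / ((n : ℝ) * Real.log n ^ 2) ≤
      ∑ j ∈ Finset.range (S.sup jf + 1), Real.exp 1 * (1 / 4 : ℝ) ^ j / L ^ 2 *
        (n : ℝ) ^ (-(1 + 1 / ((2 : ℝ) ^ (j + 1) * L))) := by
    intro n hn
    have hn0 : (0 : ℝ) < n := by
      have := hgt n hn
      exact_mod_cast (by omega : 0 < n)
    obtain ⟨h1, h2⟩ := hjf n hn
    have hjJ : jf n ∈ Finset.range (S.sup jf + 1) :=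
      Finset.mem_range.2 (Nat.lt_succ_of_le (Finset.le_sup hn))
    refine le_trans ?_ (Finset.single_le_sum (f := fun j => Real.exp 1 * (1 / 4 : ℝ) ^ j / L ^ 2 *
        (n : ℝ) ^ (-(1 + 1 / ((2 : ℝ) ^ (j + 1) * L)))) (fun i _ => by positivity) hjJ)
    have hp : (0 : ℝ) < (2 : ℝ) ^ (jf n) * L := by positivity
    have ht : 0 < Real.log n := lt_of_lt_of_le hp h1
    have hq : (0 : ℝ) < (2 : ℝ) ^ (jf n + 1) * L := by positivity
    have h3 : Real.log n * (1 / ((2 : ℝ) ^ (jf n + 1) * L)) ≤ 1 := by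
      rw [mul_one_div, div_le_one hq]
      exact h2.le
    have h4 : (n : ℝ)⁻¹ * Real.exp (-1) ≤ (n : ℝ) ^ (-(1 + 1 / ((2 : ℝ) ^ (jf n + 1) * L))) := by
      have h5 : -(1 + 1 / ((2 : ℝ) ^ (jf n + 1) * L)) = -1 + -(1 / ((2 : ℝ) ^ (jf n + 1) * L)) := by
        ring
      rw [h5, Real.rpow_add hn0, Real.rpow_neg_one, Real.rpow_def_of_pos hn0
        (-(1 / ((2 : ℝ) ^ (jf n + 1) * L)))]
      refine mul_le_mul_of_nonneg_left (Real.exp_le_exp.2 ?_) (inv_nonneg.2 hn0.le)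
      linarith
    have h6 : 1 / Real.log n ^ 2 ≤ (1 / 4 : ℝ) ^ (jf n) / L ^ 2 := by
      have h7 : (1 / 4 : ℝ) ^ (jf n) / L ^ 2 = 1 / ((2 : ℝ) ^ (jf n) * L) ^ 2 := by
        rw [mul_pow, ← pow_mul, mul_comm (jf n) 2, pow_mul]
        norm_num
        field_simp
        rw [← mul_pow]
        norm_num
      rw [h7]
      exact one_div_le_one_div_of_le (by positivity) (pow_le_pow_left₀ hp.le h1 2)
    calc 1 / ((n : ℝ) * Real.log n ^ 2) = 1 / Real.log n ^ 2 * (n : ℝ)⁻¹ := by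
          field_simp
      _ ≤ (1 / 4 : ℝ) ^ (jf n) / L ^ 2 * (n : ℝ)⁻¹ :=
          mul_le_mul_of_nonneg_right h6 (inv_nonneg.2 hn0.le)
      _ = Real.exp 1 * (1 / 4 : ℝ) ^ (jf n) / L ^ 2 * ((n : ℝ)⁻¹ * Real.exp (-1)) := by
          rw [Real.exp_neg]
          have : Real.exp 1 ≠ 0 := (Real.exp_pos 1).ne'
          field_simp
      _ ≤ _ := mul_le_mul_of_nonneg_left h4 (by positivity)
  have hgeo : ∑ j ∈ Finset.range (S.sup jf + 1), ((1 / (2 : ℝ)) ^ j) ≤ 2 := sum_geometric_two_le _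
  calc ∑ n ∈ S, 1 / ((n : ℝ) * Real.log n ^ 2)
      ≤ ∑ n ∈ S, ∑ j ∈ Finset.range (S.sup jf + 1), Real.exp 1 * (1 / 4 : ℝ) ^ j / L ^ 2 *
        (n : ℝ) ^ (-(1 + 1 / ((2 : ℝ) ^ (j + 1) * L))) := Finset.sum_le_sum hpt
    _ = ∑ j ∈ Finset.range (S.sup jf + 1), Real.exp 1 * (1 / 4 : ℝ) ^ j / L ^ 2 *
        ∑ n ∈ S, (n : ℝ) ^ (-(1 + 1 / ((2 : ℝ) ^ (j + 1) * L))) := by
        rw [Finset.sum_comm]
        exact Finset.sum_congr rfl fun j _ => (Finset.mul_sum _ _ _).symm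
    _ ≤ ∑ j ∈ Finset.range (S.sup jf + 1), 2 * Real.exp 1 * C / L ^ 2 * (1 / (2 : ℝ)) ^ j := by
        refine Finset.sum_le_sum fun j _ => ?_
        have h1 : (1 : ℝ) / ((2 : ℝ) ^ (j + 1) * L) * L = 1 / (2 : ℝ) ^ (j + 1) := by
          field_simp
        have h2 : (1 : ℝ) / (2 : ℝ) ^ (j + 1) ≤ 1 := by
          rw [div_le_one (by positivity)]
          exact one_le_pow₀ (by norm_num)
        have h3 := hE y hy (1 / ((2 : ℝ) ^ (j + 1) * L)) (by positivity)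
          (by rw [← hL, h1]; exact h2) S (fun n hn => (hS n hn).1)
        rw [← hL, h1] at h3
        refine le_trans (mul_le_mul_of_nonneg_left h3 (by positivity)) (le_of_eq ?_)
        have h4 : (1 / 4 : ℝ) ^ j = (1 / 2 : ℝ) ^ j * (1 / 2 : ℝ) ^ j := by
          rw [← mul_pow]; norm_num
        have h5 : (1 / 2 : ℝ) ^ j * (2 : ℝ) ^ j = 1 := by
          rw [← mul_pow]; norm_num
        rw [h4, pow_succ, div_div_eq_mul_div, div_one]
        calc Real.exp 1 * ((1 / 2 : ℝ) ^ j * (1 / 2 : ℝ) ^ j) / L ^ 2 * (C * ((2 : ℝ) ^ j * 2))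
            = 2 * Real.exp 1 * C / L ^ 2 * (1 / 2 : ℝ) ^ j * ((1 / 2 : ℝ) ^ j * (2 : ℝ) ^ j) := by ring
          _ = 2 * Real.exp 1 * C / L ^ 2 * (1 / 2 : ℝ) ^ j := by rw [h5, mul_one]
    _ = 2 * Real.exp 1 * C / L ^ 2 * ∑ j ∈ Finset.range (S.sup jf + 1), (1 / (2 : ℝ)) ^ j :=
        (Finset.mul_sum _ _ _).symm
    _ ≤ 2 * Real.exp 1 * C / L ^ 2 * 2 := mul_le_mul_of_nonneg_left hgeo (by positivity)
    _ = 4 * Real.exp 1 * C / L ^ 2 := by ring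
-- END rsu

end Pool.Agent.Zat
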