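import Pool.Agent.Zat.Defs

/-!
# The Dirichlet series of `ζ` without small primes
-/

set_option autoImplicit false

open MeasureTheory

namespace Pool.Agent.Zat

-- BEGIN ser
/-- the primes dividing the primorial -/
private theorem ser_pf (y : ℕ) :
    (primorial y).primeFactors = (Finset.range (y + 1)).filter Nat.Prime := by
  unfold primorial
  exact Nat.primeFactors_prod (fun p hp => (Finset.mem_filter.mp hp).2)

/-- being prime to the primorial -/
private theorem ser_cop (y n : ℕ) (hn : n ≠ 0) : Nat.Coprime n (primorial y) ↔ Rough y n := by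
  constructor
  · intro h
    refine ⟨hn, fun p hp hd => ?_⟩
    by_contra hle
    have h1 : p ∣ primorial y := by
      have h2 : p ∈ (primorial y).primeFactors := by
        rw [ser_pf, Finset.mem_filter, Finset.mem_range]
        exact ⟨by omega, hp⟩
      exact Nat.dvd_of_mem_primeFactors h2
    exact Nat.Prime.one_lt hp |>.ne' (Nat.eq_one_of_dvd_coprimes h hd h1)
  · rintro ⟨-, h⟩
    refine Nat.Coprime.symm (Nat.coprime_of_dvd fun p hp h1 h2 => ?_)
    have h3 : p ∈ (primorial y).primeFactors :=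
      Nat.mem_primeFactors.mpr ⟨hp, h1, (primorial_pos y).ne'⟩
    rw [ser_pf, Finset.mem_filter, Finset.mem_range] at h3
    have h4 := h p hp h2
    omega

/-- Idea: `DirichletCharacter.LFunctionTrivChar_eq_mul_riemannZeta` and `LFunction_eq_LSeries` for the
principal character modulo `primorial y` (the primes dividing `primorial y` are the primes `≤ y`), or the
Euler product. -/
theorem ff_hasSum (y : ℕ) (s : ℂ) (hs : 1 < s.re) :
    HasSum (fun n : ℕ => Set.indicator {n : ℕ | Rough y n} (fun n => (n : ℂ) ^ (-s)) n) (ff y s) := by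
  haveI : NeZero (primorial y) := ⟨(primorial_pos y).ne'⟩
  have hs1 : s ≠ 1 := by
    intro h
    rw [h] at hs
    simp at hs
  have h1 := DirichletCharacter.LFunctionTrivChar_eq_mul_riemannZeta (N := primorial y) hs1
  rw [ser_pf] at h1
  have h2 : ff y s = LSeries (fun n => (1 : DirichletCharacter ℂ (primorial y)) n) s := by
    rw [← DirichletCharacter.LFunction_eq_LSeries _ hs]
    change _ = DirichletCharacter.LFunctionTrivChar (primorial y) s
    rw [h1]
    unfold ff MM
    ring
  have h3 : LSeriesSummable (fun n => (1 : DirichletCharacter ℂ (primorial y)) n) s :=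
    ZMod.LSeriesSummable_of_one_lt_re _ hs
  have h4 := h3.LSeriesHasSum
  rw [← h2] at h4
  unfold LSeriesHasSum at h4
  have h5 : (fun n : ℕ => Set.indicator {n : ℕ | Rough y n} (fun n => (n : ℂ) ^ (-s)) n) =
      LSeries.term (fun n => (1 : DirichletCharacter ℂ (primorial y)) n) s := by
    funext n
    by_cases hn : n = 0
    · subst hn
      rw [LSeries.term_zero, Set.indicator_of_notMem]
      intro h
      exact h.1 rfl
    · rw [LSeries.term_of_ne_zero hn]
      by_cases hc : Nat.Coprime n (primorial y)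
      · rw [Set.indicator_of_mem (show n ∈ {n : ℕ | Rough y n} from (ser_cop y n hn).mp hc),
          MulChar.one_apply ((ZMod.isUnit_iff_coprime n (primorial y)).mpr hc),
          Complex.cpow_neg, one_div]
      · rw [Set.indicator_of_notMem (show n ∉ {n : ℕ | Rough y n} from
          fun h => hc ((ser_cop y n hn).mpr h)),
          MulChar.map_nonunit _ (fun h => hc ((ZMod.isUnit_iff_coprime n (primorial y)).mp h)),
          zero_div]
  rw [h5]
  exact h4
-- END ser

-- BEGIN rfi
theorem rough_gt {y n : ℕ} (h : Rough y n) (h1 : n ≠ 1) : y < n :=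
  lt_of_lt_of_le (h.2 n.minFac (Nat.minFac_prime h1) (Nat.minFac_dvd n))
    (Nat.minFac_le (Nat.pos_of_ne_zero h.1))

theorem rough_one (y : ℕ) : Rough y 1 := by
  refine ⟨one_ne_zero, fun p hp hd => ?_⟩
  exact absurd (Nat.dvd_one.mp hd) hp.ne_one

private theorem rfi_re (n : ℕ) (σ : ℝ) : (((n : ℂ) ^ (-(σ : ℂ))).re) = (n : ℝ) ^ (-σ) := by
  have h : ((n : ℂ) ^ (-(σ : ℂ))) = (((n : ℝ) ^ (-σ) : ℝ) : ℂ) := by
    rw [Complex.ofReal_cpow (Nat.cast_nonneg n)]
    push_cast
    rfl
  rw [h, Complex.ofReal_re]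

/-- from `ff_hasSum` at the real point `σ` -/
theorem rough_fin_le (y : ℕ) (σ : ℝ) (hσ : 1 < σ) (S : Finset ℕ) (hS : ∀ n ∈ S, Rough y n) :
    ∑ n ∈ S, (n : ℝ) ^ (-σ) ≤ ‖ff y (σ : ℂ)‖ := by
  have h1 := ff_hasSum y (σ : ℂ) (by rw [Complex.ofReal_re]; exact hσ)
  have h2 := Complex.hasSum_re h1
  have hnn : ∀ n : ℕ, 0 ≤
      (Set.indicator {n : ℕ | Rough y n} (fun n : ℕ => (n : ℂ) ^ (-(σ : ℂ))) n).re := by
    intro n
    by_cases hn : n ∈ {n : ℕ | Rough y n}
    · rw [Set.indicator_of_mem hn, rfi_re]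
      exact Real.rpow_nonneg (Nat.cast_nonneg n) _
    · rw [Set.indicator_of_notMem hn, Complex.zero_re]
  have h3 : ∑ n ∈ S, (n : ℝ) ^ (-σ) =
      ∑ n ∈ S, (Set.indicator {n : ℕ | Rough y n} (fun n : ℕ => (n : ℂ) ^ (-(σ : ℂ))) n).re := by
    refine Finset.sum_congr rfl fun n hn => ?_
    have hm : n ∈ {n : ℕ | Rough y n} := hS n hn
    rw [Set.indicator_of_mem hm, rfi_re]
  rw [h3]
  calc _ ≤ (ff y (σ : ℂ)).re := sum_le_hasSum S (fun n _ => hnn n) h2
    _ ≤ ‖ff y (σ : ℂ)‖ := Complex.re_le_norm _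
-- END rfi

end Pool.Agent.Zat
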